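import Pool.Agent.MP_cb3c9c_an.Wallis

set_option autoImplicit false

open Filter Topology Real

namespace Pool.Agent.MP_cb3c9c_an.TOP

/-- The auxiliary sequence `π(m+5/18)/((2m+1)W_m)`. -/
noncomputable def ff (m : ℕ) : ℝ := (π * (m + 5 / 18)) / ((2 * m + 1) * Real.Wallis.W m)

theorem ff_succ_le (m : ℕ) (hm : 2 ≤ m) : ff (m + 1) ≤ ff m := by
  unfold ff
  have hW := Real.Wallis.W_pos m
  have hm' : (2 : ℝ) ≤ m := by exact_mod_cast hm
  have hpi0 := Real.pi_pos
  rw [Real.Wallis.W_succ]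
  push_cast
  have e0 : (2 * ((m : ℝ) + 1) + 1) * (Real.Wallis.W m * ((2 * m + 2) / (2 * m + 1) *
      ((2 * m + 2) / (2 * m + 3)))) = (2 * m + 2) ^ 2 / (2 * m + 1) * Real.Wallis.W m := by
    have e1 : (2 * (m : ℝ) + 1) ≠ 0 := by positivity
    have e2 : (2 * (m : ℝ) + 3) ≠ 0 := by positivity
    field_simp
    ring
  rw [e0]
  rw [div_le_div_iff₀ (by positivity) (by positivity)]
  have key0 : ((m : ℝ) + 1 + 5 / 18) * (2 * m + 1) ^ 2 ≤ ((m : ℝ) + 5 / 18) * (2 * m + 2) ^ 2 := by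
    nlinarith
  have key : (π * (m + 1 + 5 / 18)) * (2 * m + 1) ^ 2 ≤ (π * (m + 5 / 18)) * (2 * m + 2) ^ 2 := by
    have := mul_le_mul_of_nonneg_left key0 hpi0.le
    linarith
  have e3 : (π * ((m : ℝ) + 1 + 5 / 18)) * ((2 * m + 1) * Real.Wallis.W m)
      = ((π * (m + 1 + 5 / 18)) * (2 * m + 1) ^ 2) * (Real.Wallis.W m / (2 * m + 1)) := by
    have e1 : (2 * (m : ℝ) + 1) ≠ 0 := by positivity
    field_simp
  have e4 : (π * ((m : ℝ) + 5 / 18)) * ((2 * m + 2) ^ 2 / (2 * m + 1) * Real.Wallis.W m)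
      = ((π * (m + 5 / 18)) * (2 * m + 2) ^ 2) * (Real.Wallis.W m / (2 * m + 1)) := by
    have e1 : (2 * (m : ℝ) + 1) ≠ 0 := by positivity
    field_simp
  rw [e3, e4]
  apply mul_le_mul_of_nonneg_right key
  positivity

theorem tendsto_ff : Tendsto ff atTop (𝓝 1) := by
  have h1 : Tendsto (fun m : ℕ => (π * ((m : ℝ) + 5 / 18)) / (2 * (m : ℝ) + 1)) atTop (𝓝 (π / 2)) := by
    have h2 : Tendsto (fun m : ℕ => π / 2 + (π * (5 / 18) - π / 2) / (2 * (m : ℝ) + 1)) atTop
        (𝓝 (π / 2 + 0)) := by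
      refine tendsto_const_nhds.add ?_
      refine tendsto_const_nhds.div_atTop ?_
      refine Tendsto.atTop_add ?_ tendsto_const_nhds
      exact tendsto_natCast_atTop_atTop.const_mul_atTop two_pos
    rw [add_zero] at h2
    refine h2.congr (fun m => ?_)
    have e1 : (2 * (m : ℝ) + 1) ≠ 0 := by positivity
    field_simp
    ring
  have h3 := h1.div Real.Wallis.tendsto_W_nhds_pi_div_two (by positivity)
  rw [div_self (by positivity)] at h3
  refine h3.congr (fun m => ?_)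
  simp only [Pi.div_apply]
  unfold ff
  rw [div_div]

theorem one_le_ff (m : ℕ) (hm : 2 ≤ m) : 1 ≤ ff m := by
  have hanti : ∀ n, m ≤ n → ff n ≤ ff m := by
    intro n hn
    induction n, hn using Nat.le_induction with
    | base => exact le_rfl
    | succ n hn ih => exact (ff_succ_le n (hm.trans hn)).trans ih
  refine le_of_tendsto tendsto_ff ?_
  filter_upwards [eventually_ge_atTop m] with n hn using hanti n hn

/-- `16^m ≤ C(2m,m)² π (m+5/18)` for `m ≥ 1`. -/
theorem wallis_bound5 (m : ℕ) (hm : 1 ≤ m) :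
    (16 : ℝ) ^ m ≤ (Nat.centralBinom m : ℝ) ^ 2 * (π * (m + 5 / 18)) := by
  rcases Nat.lt_or_ge m 2 with h2 | h2
  · have h1 : m = 1 := by omega
    subst h1
    have hpi := Real.pi_gt_d4
    have : Nat.centralBinom 1 = 2 := by decide
    rw [this]
    push_cast
    nlinarith
  · have h := one_le_ff m h2
    unfold ff at h
    have hW := Real.Wallis.W_pos m
    rw [le_div_iff₀ (by positivity), one_mul] at h
    rw [← cb_W m]
    apply mul_le_mul_of_nonneg_left h
    positivity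

end Pool.Agent.MP_cb3c9c_an.TOP
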