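import Pool.Agent.MP_cb3c9c_an.Block
import Pool.Agent.MP_cb3c9c_an.TOP.Wal

set_option autoImplicit false
set_option maxHeartbeats 4000000

open Finset Real

namespace Pool.Agent.MP_cb3c9c_an.TOP

/-- The quadratic in the mean `m` of the residual function. -/
noncomputable def EE5 (p k t : ℕ) (m : ℝ) : ℝ :=
  AA p k ^ 2 - 2 * (p.choose k : ℝ) * m * (AA p k - (p.choose k : ℝ) * t)
    + (p.choose k : ℝ) ^ 2 * (p + 5 / 9) + (p.choose k : ℝ) ^ 2 * (t : ℝ) ^ 2 * m ^ 2 / p

theorem center_even5 (k : ℕ) (hk : 1 ≤ k) :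
    2 / π * 4 ^ (2 * k) ≤ ((2 * k).choose k : ℝ) ^ 2 * (((2 * k : ℕ) : ℝ) + 5 / 9) := by
  have h := wallis_bound5 k hk
  rw [Nat.centralBinom_eq_two_mul_choose] at h
  have hpi := Real.pi_pos
  have e1 : (4 : ℝ) ^ (2 * k) = 16 ^ k := by rw [pow_mul]; norm_num
  have e2 : ((2 * k).choose k : ℝ) ^ 2 * (((2 * k : ℕ) : ℝ) + 5 / 9)
      = 2 / π * (((2 * k).choose k : ℝ) ^ 2 * (π * (k + 5 / 18))) := by
    push_cast
    field_simp
    ring
  rw [e1, e2]
  exact mul_le_mul_of_nonneg_left h (by positivity)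

theorem center_odd5 (k : ℕ) :
    2 / π * 4 ^ (2 * k + 1) ≤
      ((2 * k + 1).choose k : ℝ) ^ 2 * (((2 * k + 1 : ℕ) : ℝ) + 1 + 5 / 9) := by
  have h := center_even5 (k + 1) (by omega)
  have e1 : ((2 * (k + 1)).choose (k + 1) : ℝ) = 2 * ((2 * k + 1).choose k : ℝ) := by
    have h1 : (2 * (k + 1)).choose (k + 1) = (2 * k + 1).choose k + (2 * k + 1).choose (k + 1) := by
      rw [show 2 * (k + 1) = (2 * k + 1) + 1 by ring, Nat.choose_succ_succ']
    have h2 : (2 * k + 1).choose (k + 1) = (2 * k + 1).choose k := by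
      rw [← Nat.choose_symm_of_eq_add (by omega : 2 * k + 1 = (k + 1) + k)]
    rw [h1, h2]; push_cast; ring
  rw [e1] at h
  push_cast at h ⊢
  have e2 : (4 : ℝ) ^ (2 * (k + 1)) = 4 * 4 ^ (2 * k + 1) := by
    rw [show 2 * (k + 1) = (2 * k + 1) + 1 by ring, pow_succ]; ring
  rw [e2] at h
  have e3 : (2 * (k : ℝ) + 1 + 1 + 5 / 9) = (2 * ((k : ℝ) + 1) + 5 / 9) := by ring
  rw [e3]
  linarith

/-- Main numeric inequality (induction away from the centre). -/
theorem main_ind5 (p : ℕ) (hp : 1 ≤ p) (t : ℕ) :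
    ∀ k, 2 * k + t = p → 0 ≤ AA p k - (p.choose k : ℝ) * t ∧
      ∀ m : ℝ, -1 ≤ m → m ≤ 1 → 2 / π * 4 ^ p ≤ EE5 p k t m := by
  have hpi := Real.pi_pos
  have hpi3 := Real.pi_gt_three
  have hw : 2 / π ≤ 3 / 4 := by
    rw [div_le_div_iff₀ hpi (by norm_num)]; linarith
  have hw0 : 0 < 2 / π := by positivity
  induction t using Nat.twoStepInduction with
  | zero =>
    intro k hk
    obtain rfl : p = 2 * k := by omega
    have hA := AA_zero k
    refine ⟨by simp [hA], ?_⟩
    intro m h1 h2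
    have h := center_even5 k (by omega)
    unfold EE5
    rw [hA]
    simp only [Nat.cast_zero]
    calc 2 / π * 4 ^ (2 * k) ≤ _ := h
      _ = _ := by ring
  | one =>
    intro k hk
    obtain rfl : p = 2 * k + 1 := by omega
    have hA := AA_one k
    refine ⟨by simp [hA], ?_⟩
    intro m h1 h2
    have h := center_odd5 k
    unfold EE5
    rw [hA]
    have h3 : 0 ≤ ((2 * k + 1).choose k : ℝ) ^ 2 * ((1 : ℕ) : ℝ) ^ 2 * m ^ 2 / ((2 * k + 1 : ℕ) : ℝ) := by
      positivity
    have h4 : ((2 * k + 1).choose k : ℝ) - ((2 * k + 1).choose k : ℝ) * ((1 : ℕ) : ℝ) = 0 := by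
      push_cast; ring
    rw [h4]
    nlinarith
  | more t ih1 ih2 =>
    intro k hk
    obtain ⟨hu, hE⟩ := ih1 (k + 1) (by omega)
    have hG := hE 1 (by norm_num) le_rfl
    have hsucc := AA_succ p k
    -- relation between consecutive binomials
    have hrel : ((p.choose k : ℕ) : ℝ) * (k + t + 2) = (p.choose (k + 1) : ℝ) * (k + 1) := by
      have h := Nat.choose_succ_right_eq p k
      have h' : p - k = k + t + 2 := by omega
      rw [h'] at h
      exact_mod_cast h.symm
    have hp' : (p : ℝ) = 2 * k + t + 2 := by rw [← hk]; push_cast; ring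
    set b : ℝ := (p.choose k : ℝ) with hb
    set b1 : ℝ := (p.choose (k + 1) : ℝ) with hb1
    have hb1pos : 0 < b1 := by
      rw [hb1]; exact_mod_cast Nat.choose_pos (by omega)
    have hbpos : 0 < b := by
      rw [hb]; exact_mod_cast Nat.choose_pos (by omega)
    have hk0 : (0 : ℝ) ≤ k := Nat.cast_nonneg k
    have ht0 : (0 : ℝ) ≤ t := Nat.cast_nonneg t
    have hbb : b = b1 * (k + 1) / (k + t + 2) := by
      rw [eq_div_iff (by positivity)]; exact hrel
    have hle : b ≤ b1 := by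
      have : b * (k + t + 2) ≤ b1 * (k + t + 2) := by
        rw [hrel]; nlinarith
      exact le_of_mul_le_mul_right this (by positivity)
    set u : ℝ := AA p (k + 1) - b1 * t with hu_def
    have hA1 : AA p (k + 1) = b1 * t + u := by rw [hu_def]; ring
    have hA : AA p k = b1 * t + u + b + b1 := by rw [hsucc, hA1]
    have hu' : AA p k - b * ((t + 2 : ℕ) : ℝ) = u + (t + 1) * (b1 - b) := by
      rw [hA]; push_cast; ring
    have hu'0 : 0 ≤ AA p k - b * ((t + 2 : ℕ) : ℝ) := by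
      rw [hu']
      have : 0 ≤ b1 - b := by linarith
      positivity
    refine ⟨hu'0, ?_⟩
    intro m hm1 hm2
    set u' : ℝ := AA p k - b * ((t + 2 : ℕ) : ℝ) with hu'_def
    have hA' : AA p k = b * (t + 2) + u' := by rw [hu'_def]; push_cast; ring
    -- lower bound on u'
    have hlow : 2 * ((t : ℝ) + 1) ^ 2 * b ≤ u' * p := by
      have h1 : (b1 - b) * (k + 1) = b * (t + 1) := by
        have := hrel; linarith
      have h2 : ((t : ℝ) + 1) * (b1 - b) ≤ u' := by rw [hu']; linarith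
      have h3 : ((t : ℝ) + 1) * (b1 - b) * p ≤ u' * p := by
        apply mul_le_mul_of_nonneg_right h2 (Nat.cast_nonneg p)
      have h4 : 2 * ((t : ℝ) + 1) ^ 2 * b ≤ ((t : ℝ) + 1) * (b1 - b) * p := by
        have h5 : ((t : ℝ) + 1) * (b1 - b) * (2 * (k + 1)) = 2 * ((t : ℝ) + 1) ^ 2 * b := by
          linear_combination 2 * ((t : ℝ) + 1) * h1
        rw [← h5]
        apply mul_le_mul_of_nonneg_left
        · rw [hp']; linarith
        · have : 0 ≤ b1 - b := by linarith
          positivity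
      linarith
    -- step for G
    have hGstep : EE5 p (k + 1) t 1 + b ^ 2 / p ≤ EE5 p k (t + 2) 1 := by
      have hident : EE5 p k (t + 2) 1 - EE5 p (k + 1) t 1
          = 4 * u * b1 + b1 ^ 2 * (t + 1) * (2 * k + t + 3) * (1 - 5 / 9) / (k + t + 2) ^ 2 := by
        unfold EE5
        rw [← hb, ← hb1, hA, hA1]
        push_cast
        rw [hp', hbb]
        have e1 : ((k : ℝ) + t + 2) ≠ 0 := by positivity
        have e2 : (2 * (k : ℝ) + t + 2) ≠ 0 := by positivity
        field_simp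
        ring
      have hb2 : b ^ 2 / p ≤ b1 ^ 2 * (t + 1) * (2 * k + t + 3) * (1 - 5 / 9) / (k + t + 2) ^ 2 := by
        rw [hbb, hp']
        rw [div_pow, div_div, div_le_div_iff₀ (by positivity) (by positivity)]
        have h1 : ((k : ℝ) + 1) ^ 2 ≤ (t + 1) * (2 * k + t + 3) * (1 - 5 / 9) * (2 * k + t + 2) := by
          have h2 : (1 : ℝ) / 4 ≤ 1 - 5 / 9 := by norm_num
          have h3 : ((k : ℝ) + 1) ^ 2 ≤ (t + 1) * (2 * k + t + 3) * (1 / 4) * (2 * k + t + 2) := by
            nlinarith [mul_nonneg hk0 ht0, mul_nonneg (mul_nonneg hk0 ht0) ht0,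
              mul_nonneg (mul_nonneg hk0 hk0) ht0, mul_nonneg ht0 ht0,
              mul_nonneg (mul_nonneg ht0 ht0) ht0]
          have h4 : (t + 1) * (2 * (k : ℝ) + t + 3) * (1 / 4) * (2 * k + t + 2)
              ≤ (t + 1) * (2 * k + t + 3) * (1 - 5 / 9) * (2 * k + t + 2) := by
            apply mul_le_mul_of_nonneg_right _ (by positivity)
            apply mul_le_mul_of_nonneg_left h2 (by positivity)
          linarith
        have h5 : 0 ≤ b1 ^ 2 * (k + t + 2) ^ 2 := by positivity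
        have h6 := mul_le_mul_of_nonneg_left h1 h5
        calc (b1 * (k + 1)) ^ 2 * ((k : ℝ) + t + 2) ^ 2
            = b1 ^ 2 * (k + t + 2) ^ 2 * ((k : ℝ) + 1) ^ 2 := by ring
          _ ≤ _ := h6
          _ = _ := by ring
      have h7 : 0 ≤ 4 * u * b1 := by positivity
      linarith
    -- passing from m = 1 to m
    have hEm : EE5 p k (t + 2) 1 - b ^ 2 / p ≤ EE5 p k (t + 2) m := by
      have hppos : (0 : ℝ) < p := by exact_mod_cast (by omega : 0 < p)
      have hd : EE5 p k (t + 2) m - EE5 p k (t + 2) 1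
          = b * (1 - m) * (2 * u' - b * ((t : ℝ) + 2) ^ 2 * (1 + m) / p) := by
        unfold EE5
        rw [← hb, ← hu'_def]
        push_cast
        field_simp
        ring
      have h1 : (b / p) * (4 * ((t : ℝ) + 1) ^ 2 - (t + 2) ^ 2 * (1 + m))
          ≤ 2 * u' - b * ((t : ℝ) + 2) ^ 2 * (1 + m) / p := by
        have h2 : (b / p) * (4 * ((t : ℝ) + 1) ^ 2) ≤ 2 * u' := by
          rw [div_mul_eq_mul_div, div_le_iff₀ hppos]
          nlinarith
        have h3 : (b / p) * ((t + 2) ^ 2 * (1 + m)) = b * ((t : ℝ) + 2) ^ 2 * (1 + m) / p := by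
          ring
        rw [mul_sub, h3]; linarith
      have h4 := aux_m ((t : ℝ) + 2) m (by linarith) hm2
      have h5 : b * (1 - m) * ((b / p) * (4 * ((t : ℝ) + 1) ^ 2 - (t + 2) ^ 2 * (1 + m)))
          ≤ b * (1 - m) * (2 * u' - b * ((t : ℝ) + 2) ^ 2 * (1 + m) / p) := by
        apply mul_le_mul_of_nonneg_left h1
        have : 0 ≤ 1 - m := by linarith
        positivity
      have h6 : b * (1 - m) * ((b / p) * (4 * ((t : ℝ) + 1) ^ 2 - (t + 2) ^ 2 * (1 + m)))
          = (b ^ 2 / p) * ((1 - m) * (4 * ((t : ℝ) + 2 - 1) ^ 2 - (t + 2) ^ 2 * (1 + m))) := by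
        ring
      have h7 : (b ^ 2 / p) * (-1) ≤
          (b ^ 2 / p) * ((1 - m) * (4 * ((t : ℝ) + 2 - 1) ^ 2 - (t + 2) ^ 2 * (1 + m))) := by
        apply mul_le_mul_of_nonneg_left h4 (by positivity)
      linarith
    linarith


/-- Full numeric inequality. -/
theorem num5 (p k : ℕ) (hp : 1 ≤ p) (hk : k ≤ p) (m : ℝ) (hm1 : -1 ≤ m) (hm2 : m ≤ 1) :
    2 / π * (2 ^ p) ^ 2 ≤
      (2 * (∑ j ∈ range k, (p.choose j : ℝ)) + (p.choose k : ℝ) - 2 ^ p + (p.choose k : ℝ) * m) ^ 2
      + (1 / p) * ((p.choose k : ℝ) * (p + ((p : ℝ) - 2 * k) * m)) ^ 2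
      + (p.choose k : ℝ) ^ 2 * (5 / 9 - m ^ 2) := by
  have hp0 : (p : ℝ) ≠ 0 := by positivity
  have e4 : ((2 : ℝ) ^ p) ^ 2 = 4 ^ p := by
    rw [← pow_mul, mul_comm, pow_mul]; norm_num
  rw [e4]
  rcases le_or_gt (2 * k) p with h | h
  · have hE := (main_ind5 p hp (p - 2 * k) k (by omega)).2 m hm1 hm2
    refine hE.trans (le_of_eq ?_)
    unfold EE5 AA
    have ht : (((p - 2 * k : ℕ)) : ℝ) = (p : ℝ) - 2 * k := by
      rw [Nat.cast_sub h]; push_cast; ring
    rw [ht]
    field_simp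
    ring
  · have hE := (main_ind5 p hp (p - 2 * (p - k)) (p - k) (by omega)).2 (-m) (by linarith) (by linarith)
    refine hE.trans (le_of_eq ?_)
    have hS := choose_refl_sum p k hk
    have hsymm : p.choose (p - k) = p.choose k := Nat.choose_symm hk
    unfold EE5 AA
    have ht : (((p - 2 * (p - k) : ℕ)) : ℝ) = 2 * k - (p : ℝ) := by
      rw [Nat.cast_sub (by omega)]; push_cast; rw [Nat.cast_sub hk]; ring
    rw [ht, hsymm, ← hS]
    field_simp
    ring


/-- The key block lemma. -/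
theorem block5 {ι : Type} [Fintype ι] [DecidableEq ι] (P : ι → Prop) [DecidablePred P]
    (f : (ι → Bool) → ℝ) (c : {i // P i} → Bool) (κ : ℕ)
    (hp : 1 ≤ Fintype.card {i // P i}) (hκ : κ ≤ Fintype.card {i // P i})
    (g : ({i // ¬ P i} → Bool) → ℝ) (hg : ∀ y, g y = 1 ∨ g y = -1)
    (hW : 5 / 9 ≤ Wt g)
    (h1 : ∀ u y, (univ.filter (fun i => u i ≠ c i)).card < κ →
      f ((Equiv.piEquivPiSubtypeProd P (fun _ => Bool)).symm (u, y)) = 1)
    (h2 : ∀ u y, κ < (univ.filter (fun i => u i ≠ c i)).card →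
      f ((Equiv.piEquivPiSubtypeProd P (fun _ => Bool)).symm (u, y)) = -1)
    (h3 : ∀ u y, (univ.filter (fun i => u i ≠ c i)).card = κ →
      f ((Equiv.piEquivPiSubtypeProd P (fun _ => Bool)).symm (u, y)) = g y) :
    2 / π ≤ Wt f := by
  classical
  set e := Equiv.piEquivPiSubtypeProd P (fun _ : ι => Bool) with he
  set p := Fintype.card {i // P i} with hpdef
  set q := Fintype.card {i // ¬ P i} with hqdef
  have hcard : Fintype.card ι = p + q := by
    rw [hpdef, hqdef, Fintype.card_subtype_compl]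
    have := Fintype.card_subtype_le P
    omega
  set G : ℝ := ∑ y, g y with hG
  set cnt : ({i // P i} → Bool) → ℕ := fun u => (univ.filter (fun i => u i ≠ c i)).card with hcnt
  have hsplit : ∀ h : (ι → Bool) → ℝ, ∑ x, h x = ∑ u, ∑ y, h (e.symm (u, y)) := by
    intro h
    rw [← Equiv.sum_comp e.symm h, Fintype.sum_prod_type]
  have hcardB : (Fintype.card ({i // ¬ P i} → Bool) : ℝ) = 2 ^ q := by
    rw [Fintype.card_fun, Fintype.card_bool]; push_cast; rfl
  -- value of inner sums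
  have hinner : ∀ u, ∑ y, f (e.symm (u, y))
      = if cnt u < κ then (2 : ℝ) ^ q else if cnt u = κ then G else -(2 : ℝ) ^ q := by
    intro u
    rcases lt_trichotomy (cnt u) κ with h | h | h
    · rw [if_pos h, Finset.sum_congr rfl (fun y _ => h1 u y h)]
      rw [Finset.sum_const, Finset.card_univ, nsmul_eq_mul, hcardB, mul_one]
    · rw [if_neg (by omega), if_pos h, Finset.sum_congr rfl (fun y _ => h3 u y h)]
    · rw [if_neg (by omega), if_neg (by omega), Finset.sum_congr rfl (fun y _ => h2 u y h)]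
      rw [Finset.sum_const, Finset.card_univ, nsmul_eq_mul, hcardB]; ring
  -- splitting sums over range (p+1)
  have hrange : ∀ ψ : ℕ → ℝ, ∀ a b' d : ℝ,
      ∑ j ∈ range (p + 1), ψ j * (if j < κ then a else if j = κ then b' else d)
        = a * (∑ j ∈ range κ, ψ j) + b' * ψ κ
          + d * ((∑ j ∈ range (p + 1), ψ j) - (∑ j ∈ range κ, ψ j) - ψ κ) := by
    intro ψ a b' d
    have hp1 : p + 1 = (κ + 1) + (p - κ) := by omega
    rw [hp1, Finset.sum_range_add, Finset.sum_range_add ψ (κ + 1), Finset.sum_range_succ,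
      Finset.sum_range_succ ψ κ]
    have ha : ∑ j ∈ range κ, ψ j * (if j < κ then a else if j = κ then b' else d)
        = a * ∑ j ∈ range κ, ψ j := by
      rw [Finset.mul_sum]
      apply Finset.sum_congr rfl
      intro j hj
      rw [if_pos (Finset.mem_range.mp hj)]; ring
    have hd : ∑ j ∈ range (p - κ), ψ (κ + 1 + j) *
          (if κ + 1 + j < κ then a else if κ + 1 + j = κ then b' else d)
        = d * ∑ j ∈ range (p - κ), ψ (κ + 1 + j) := by
      rw [Finset.mul_sum]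
      apply Finset.sum_congr rfl
      intro j _
      rw [if_neg (by omega), if_neg (by omega)]; ring
    rw [ha, hd]
    simp only [lt_irrefl, if_false, if_true]
    ring
  set S : ℝ := ∑ j ∈ range κ, (p.choose j : ℝ) with hS
  set b : ℝ := (p.choose κ : ℝ) with hb
  have htot : ∑ j ∈ range (p + 1), (p.choose j : ℝ) = 2 ^ p := by
    have := Nat.sum_range_choose p
    exact_mod_cast this
  have hsum0 : ∑ x, f x = 2 ^ q * (2 * S + b - 2 ^ p) + b * G := by
    rw [hsplit]
    rw [Finset.sum_congr rfl (fun u _ => hinner u)]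
    rw [sum_cnt c (fun j => if j < κ then (2 : ℝ) ^ q else if j = κ then G else -(2 : ℝ) ^ q)]
    rw [hrange (fun j => (p.choose j : ℝ)), htot]
    ring
  -- the block sum
  set T : ({i // P i} → Bool) → ℝ := fun u => ∑ i, (if c i then (-1 : ℝ) else 1) *
    (if u i then (-1 : ℝ) else 1) with hT
  have hTval : ∀ u, T u = (p : ℝ) - 2 * (cnt u : ℝ) := by
    intro u
    have h : T u = ∑ i : {i // P i}, ((1 : ℝ) - 2 * (if u i ≠ c i then 1 else 0)) := by
      rw [hT]
      apply Finset.sum_congr rfl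
      intro i _
      cases hu : u i <;> cases hc : c i <;> norm_num
    rw [h, Finset.sum_sub_distrib, ← Finset.mul_sum, Finset.sum_boole]
    simp [hcnt, hpdef]
  have hsumT : ∑ u, T u * (∑ y, f (e.symm (u, y)))
      = 2 ^ q * (p * b) + b * ((p : ℝ) - 2 * κ) * G := by
    have hstep : ∀ u, T u * (∑ y, f (e.symm (u, y))) = (fun j : ℕ => ((p : ℝ) - 2 * (j : ℝ)) *
        (if j < κ then (2 : ℝ) ^ q else if j = κ then G else -(2 : ℝ) ^ q)) (cnt u) := by
      intro u
      rw [hTval, hinner]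
    rw [Finset.sum_congr rfl (fun u _ => hstep u)]
    rw [sum_cnt c (fun j : ℕ => ((p : ℝ) - 2 * (j : ℝ)) *
        (if j < κ then (2 : ℝ) ^ q else if j = κ then G else -(2 : ℝ) ^ q))]
    have hstep2 : ∑ j ∈ range (p + 1), (p.choose j : ℝ) * (((p : ℝ) - 2 * (j : ℝ)) *
        (if j < κ then (2 : ℝ) ^ q else if j = κ then G else -(2 : ℝ) ^ q))
        = ∑ j ∈ range (p + 1), ((p.choose j : ℝ) * ((p : ℝ) - 2 * (j : ℝ))) *
        (if j < κ then (2 : ℝ) ^ q else if j = κ then G else -(2 : ℝ) ^ q) := by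
      apply Finset.sum_congr rfl; intro j _; ring
    rw [hstep2, hrange, Zsum, Zsum, Nat.choose_succ_self]
    push_cast
    ring
  have hA : ∑ i : {i // P i}, (if c i then (-1 : ℝ) else 1) *
      (∑ x, f x * (if x i.1 then (-1 : ℝ) else 1))
        = 2 ^ q * (p * b) + b * ((p : ℝ) - 2 * κ) * G := by
    rw [← hsumT]
    have hx : ∀ i : {i // P i}, ∑ x, f x * (if x i.1 then (-1 : ℝ) else 1)
        = ∑ u : {i // P i} → Bool, (if u i then (-1 : ℝ) else 1) * ∑ y, f (e.symm (u, y)) := by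
      intro i
      rw [hsplit]
      apply Finset.sum_congr rfl
      intro u _
      rw [Finset.mul_sum]
      apply Finset.sum_congr rfl
      intro y _
      have : (e.symm (u, y)) i.1 = u i := by
        rw [he]
        simp [Equiv.piEquivPiSubtypeProd, i.2]
      rw [this]; ring
    simp_rw [hx, hT, Finset.sum_mul, Finset.mul_sum]
    rw [Finset.sum_comm]
    apply Finset.sum_congr rfl
    intro u _
    apply Finset.sum_congr rfl
    intro i _
    apply Finset.sum_congr rfl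
    intro y _
    ring
  have hB : ∀ i : {i // ¬ P i}, ∑ x, f x * (if x i.1 then (-1 : ℝ) else 1)
      = b * ∑ y, g y * (if y i then (-1 : ℝ) else 1) := by
    intro i
    rw [hsplit]
    have hev : ∀ u y, (e.symm (u, y)) i.1 = y i := by
      intro u y
      rw [he]
      simp [Equiv.piEquivPiSubtypeProd, i.2]
    have hin : ∀ u, ∑ y, f (e.symm (u, y)) * (if (e.symm (u, y)) i.1 then (-1 : ℝ) else 1)
        = (fun j : ℕ => if j < κ then (0 : ℝ) else if j = κ then
            (∑ y, g y * (if y i then (-1 : ℝ) else 1)) else 0) (cnt u) := by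
      intro u
      simp only [hev]
      rcases lt_trichotomy (cnt u) κ with h | h | h
      · rw [if_pos h, Finset.sum_congr rfl (fun y _ => by rw [h1 u y h, one_mul])]
        exact sum_sg i
      · rw [if_neg (by omega), if_pos h, Finset.sum_congr rfl (fun y _ => by rw [h3 u y h])]
      · rw [if_neg (by omega), if_neg (by omega),
          Finset.sum_congr rfl (fun y _ => by rw [h2 u y h, neg_one_mul])]
        rw [Finset.sum_neg_distrib, sum_sg i, neg_zero]
    rw [Finset.sum_congr rfl (fun u _ => hin u)]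
    rw [sum_cnt c (fun j : ℕ => if j < κ then (0 : ℝ) else if j = κ then
            (∑ y, g y * (if y i then (-1 : ℝ) else 1)) else 0)]
    rw [hrange (fun j => (p.choose j : ℝ))]
    rw [← hb]; ring
  -- assemble
  have hN : (0 : ℝ) < 2 ^ p := by positivity
  have hQ : (0 : ℝ) < 2 ^ q := by positivity
  have hp0 : (0 : ℝ) < p := by exact_mod_cast hp
  set m : ℝ := G / 2 ^ q with hm
  have hGm : G = m * 2 ^ q := by rw [hm]; field_simp
  have hGabs : |G| ≤ 2 ^ q := by
    rw [hG]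
    calc |∑ y, g y| ≤ ∑ y, |g y| := Finset.abs_sum_le_sum_abs _ _
      _ = ∑ y : {i // ¬ P i} → Bool, (1 : ℝ) := by
          apply Finset.sum_congr rfl; intro y _
          rcases hg y with h | h <;> rw [h] <;> norm_num
      _ = 2 ^ q := by rw [Finset.sum_const, Finset.card_univ, nsmul_eq_mul, hcardB, mul_one]
  have hm1 : -1 ≤ m := by
    rw [hm, le_div_iff₀ hQ]; linarith [neg_abs_le G]
  have hm2 : m ≤ 1 := by
    rw [hm, div_le_iff₀ hQ]; linarith [le_abs_self G]
  have hnum := num5 p κ hp hκ m hm1 hm2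
  rw [← hS, ← hb] at hnum
  -- split the weight
  have hsplitW : ∑ i, ((∑ x, f x * (if x i then (-1 : ℝ) else 1)) / 2 ^ Fintype.card ι) ^ 2
      = ∑ i : {i // P i}, ((∑ x, f x * (if x i.1 then (-1 : ℝ) else 1)) / 2 ^ Fintype.card ι) ^ 2
      + ∑ i : {i // ¬ P i},
        ((∑ x, f x * (if x i.1 then (-1 : ℝ) else 1)) / 2 ^ Fintype.card ι) ^ 2 := by
    rw [← Fintype.sum_subtype_add_sum_subtype P
      (fun i => ((∑ x, f x * (if x i then (-1 : ℝ) else 1)) / 2 ^ Fintype.card ι) ^ 2)]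
  have hCS : (1 / p) * ((2 ^ q * (p * b) + b * ((p : ℝ) - 2 * κ) * G) / 2 ^ Fintype.card ι) ^ 2
      ≤ ∑ i : {i // P i},
        ((∑ x, f x * (if x i.1 then (-1 : ℝ) else 1)) / 2 ^ Fintype.card ι) ^ 2 := by
    have h := Finset.sum_mul_sq_le_sq_mul_sq (univ : Finset {i // P i})
      (fun i => (if c i then (-1 : ℝ) else 1))
      (fun i => (∑ x, f x * (if x i.1 then (-1 : ℝ) else 1)) / 2 ^ Fintype.card ι)
    have h4 : ∑ i : {i // P i}, (if c i then (-1 : ℝ) else 1) ^ 2 = p := by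
      have : ∀ i : {i // P i}, (if c i then (-1 : ℝ) else 1) ^ 2 = 1 := by
        intro i; split_ifs <;> norm_num
      simp only [this]; simp [hpdef]
    have h5 : ∑ i : {i // P i}, (if c i then (-1 : ℝ) else 1) *
        ((∑ x, f x * (if x i.1 then (-1 : ℝ) else 1)) / 2 ^ Fintype.card ι)
        = (2 ^ q * (p * b) + b * ((p : ℝ) - 2 * κ) * G) / 2 ^ Fintype.card ι := by
      rw [← hA, Finset.sum_div]
      apply Finset.sum_congr rfl; intro i _; ring
    rw [h4, h5] at h
    rw [one_div, inv_mul_le_iff₀ hp0]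
    exact h
  have hBW : ∑ i : {i // ¬ P i},
        ((∑ x, f x * (if x i.1 then (-1 : ℝ) else 1)) / 2 ^ Fintype.card ι) ^ 2
      = (b / 2 ^ p) ^ 2 * ∑ i : {i // ¬ P i},
        ((∑ y, g y * (if y i then (-1 : ℝ) else 1)) / 2 ^ q) ^ 2 := by
    rw [Finset.mul_sum]
    apply Finset.sum_congr rfl
    intro i _
    rw [hB i, hcard, pow_add]
    field_simp
  have hgW : 5 / 9 - m ^ 2 ≤ ∑ i : {i // ¬ P i},
        ((∑ y, g y * (if y i then (-1 : ℝ) else 1)) / 2 ^ q) ^ 2 := by
    unfold Wt at hW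
    rw [← hG, ← hqdef, ← hm] at hW
    linarith
  unfold Wt
  rw [hsplitW, hBW, hsum0]
  have hfin : 2 / π ≤ ((2 ^ q * (2 * S + b - 2 ^ p) + b * G) / 2 ^ Fintype.card ι) ^ 2
      + ((1 / p) * ((2 ^ q * (p * b) + b * ((p : ℝ) - 2 * κ) * G) / 2 ^ Fintype.card ι) ^ 2
        + (b / 2 ^ p) ^ 2 * (5 / 9 - m ^ 2)) := by
    have e1 : (2 ^ q * (2 * S + b - 2 ^ p) + b * G) / 2 ^ Fintype.card ι
        = (2 * S + b - 2 ^ p + b * m) / 2 ^ p := by
      rw [hcard, pow_add, hGm]; field_simp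
    have e2 : (2 ^ q * (p * b) + b * ((p : ℝ) - 2 * κ) * G) / 2 ^ Fintype.card ι
        = (b * (p + ((p : ℝ) - 2 * κ) * m)) / 2 ^ p := by
      rw [hcard, pow_add, hGm]; field_simp
    rw [e1, e2]
    have e3 : ((2 * S + b - 2 ^ p + b * m) / 2 ^ p) ^ 2
      + ((1 / p) * ((b * (p + ((p : ℝ) - 2 * κ) * m)) / 2 ^ p) ^ 2
        + (b / 2 ^ p) ^ 2 * (5 / 9 - m ^ 2))
        = ((2 * S + b - 2 ^ p + b * m) ^ 2 + (1 / p) * (b * (p + ((p : ℝ) - 2 * κ) * m)) ^ 2
          + b ^ 2 * (5 / 9 - m ^ 2)) / (2 ^ p) ^ 2 := by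
      field_simp
      ring
    rw [e3, le_div_iff₀ (by positivity)]
    exact hnum
  have h9 : (b / 2 ^ p) ^ 2 * (5 / 9 - m ^ 2) ≤ (b / 2 ^ p) ^ 2 * ∑ i : {i // ¬ P i},
        ((∑ y, g y * (if y i then (-1 : ℝ) else 1)) / 2 ^ q) ^ 2 :=
    mul_le_mul_of_nonneg_left hgW (by positivity)
  linarith


end Pool.Agent.MP_cb3c9c_an.TOP
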