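import Pool.Agent.MP_cb3c9c_an.Main
import Pool.Agent.MP_cb3c9c_an.TOP.Blk
import Pool.Agent.MP_cb3c9c_an.UNI.Src

set_option autoImplicit false
set_option maxHeartbeats 4000000

open Finset Real

namespace Pool.Agent.MP_cb3c9c_an.TOP

open Pool.Agent.MP_cb3c9c_an.UNI

/-- the bound `5/9` over an arbitrary index type -/
theorem Wt_TB {ι : Type} [Fintype ι] [DecidableEq ι] (f : (ι → Bool) → ℝ) (a : ι → ℝ) (a0 : ℝ)
    (hf : ∀ x, f x = 1 ∨ f x = -1)
    (hpos : ∀ x, 0 < f x * (a0 + ∑ i, a i * (if x i then (-1 : ℝ) else 1))) :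
    5 / 9 ≤ Wt f := by
  classical
  let e := Fintype.equivFin ι
  let E := Equiv.arrowCongr e (Equiv.refl Bool)
  have hE : ∀ (y : Fin (Fintype.card ι) → Bool) (i : ι), E.symm y i = y (e i) := by
    intro y i; rfl
  have hsum : ∀ h : (ι → Bool) → ℝ, ∑ y, h (E.symm y) = ∑ x, h x := by
    intro h; exact Equiv.sum_comp E.symm h
  have key := tbStmt (Fintype.card ι) (fun y => f (E.symm y)) (fun k => a (e.symm k)) a0
    (fun y => hf _) (by
      intro y
      have h := hpos (E.symm y)
      have h2 : ∑ k, a (e.symm k) * (if y k then (-1 : ℝ) else 1)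
          = ∑ i, a i * (if E.symm y i then (-1 : ℝ) else 1) := by
        rw [← Equiv.sum_comp e (fun k => a (e.symm k) * (if y k then (-1 : ℝ) else 1))]
        apply Finset.sum_congr rfl
        intro i _
        rw [hE]; simp
      rw [h2]; exact h)
  unfold Wt
  have h1 : ∑ y : Fin (Fintype.card ι) → Bool, f (E.symm y) = ∑ x, f x := hsum f
  have h2 : ∑ k, ((∑ y : Fin (Fintype.card ι) → Bool, f (E.symm y) * (if y k then (-1 : ℝ) else 1))
        / (2:ℝ) ^ Fintype.card ι) ^ 2
      = ∑ i, ((∑ x, f x * (if x i then (-1 : ℝ) else 1)) / (2:ℝ) ^ Fintype.card ι) ^ 2 := by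
    rw [← Equiv.sum_comp e]
    apply Finset.sum_congr rfl
    intro i _
    have h3 : ∑ y : Fin (Fintype.card ι) → Bool, f (E.symm y) * (if y (e i) then (-1 : ℝ) else 1)
        = ∑ x, f x * (if x i then (-1 : ℝ) else 1) := by
      rw [← hsum (fun x => f x * (if x i then (-1 : ℝ) else 1))]
      apply Finset.sum_congr rfl
      intro y _
      rw [hE]
    rw [h3]
  rw [h1, h2] at key
  exact key

/-- one dominating block, arbitrary tail and threshold -/
theorem main5 {ι : Type} [Fintype ι] [DecidableEq ι] (f : (ι → Bool) → ℝ) (a : ι → ℝ) (a0 : ℝ)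
      (hf : ∀ x, f x = 1 ∨ f x = -1)
      (hpos : ∀ x, 0 < f x * (a0 + ∑ i, a i * (if x i then (-1 : ℝ) else 1)))
      (hblk : ∀ i, (∀ j, |a j| ≤ |a i|) → ∑ j ∈ univ.filter (fun j => |a j| < |a i|), |a j| ≤ |a i|) :
      2 / π ≤ Wt f := by
  classical
  by_cases hzero : ∀ i, a i = 0
  · -- constant function
    have hc : ∀ x, 0 < f x * a0 := by
      intro x
      have h := hpos x
      simpa [hzero] using h
    rcases hf (fun _ => false) with h0 | h0
    · apply Wt_const f 1 (by norm_num)
      intro x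
      rcases hf x with h | h
      · exact h
      · have h1 := hc (fun _ => false)
        have h2 := hc x
        rw [h0] at h1; rw [h] at h2; linarith
    · apply Wt_const f (-1) (by norm_num)
      intro x
      rcases hf x with h | h
      · have h1 := hc (fun _ => false)
        have h2 := hc x
        rw [h0] at h1; rw [h] at h2; linarith
      · exact h
  push Not at hzero
  obtain ⟨i1, hi1⟩ := hzero
  obtain ⟨i0, _, hi0⟩ := Finset.exists_max_image (univ : Finset ι) (fun i => |a i|) ⟨i1, mem_univ _⟩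
  set v : ℝ := |a i0| with hv
  have hvpos : 0 < v := lt_of_lt_of_le (abs_pos.mpr hi1) (hi0 i1 (mem_univ _))
  let P : ι → Prop := fun i => |a i| = v
  have : DecidablePred P := fun i => Classical.propDecidable _
  set p := Fintype.card {i // P i} with hp
  have hp1 : 1 ≤ p := Fintype.card_pos_iff.mpr ⟨⟨i0, rfl⟩⟩
  set e := Equiv.piEquivPiSubtypeProd P (fun _ : ι => Bool) with he
  let c : {i // P i} → Bool := fun i => decide (a i.1 < 0)
  let R : ({i // ¬ P i} → Bool) → ℝ := fun y => ∑ i : {i // ¬ P i}, a i.1 * (if y i then (-1 : ℝ) else 1)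
  set cnt : ({i // P i} → Bool) → ℕ := fun u => (univ.filter (fun i => u i ≠ c i)).card with hcnt
  have hval : ∀ u y, a0 + ∑ i, a i * (if (e.symm (u, y)) i then (-1 : ℝ) else 1)
      = a0 + v * ((p : ℝ) - 2 * (cnt u : ℝ)) + R y := by
    intro u y
    rw [← Fintype.sum_subtype_add_sum_subtype P
      (fun i => a i * (if (e.symm (u, y)) i then (-1 : ℝ) else 1))]
    have h1 : ∑ i : {i // ¬ P i}, a i.1 * (if (e.symm (u, y)) i.1 then (-1 : ℝ) else 1) = R y := by
      apply Finset.sum_congr rfl
      intro i _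
      have : (e.symm (u, y)) i.1 = y i := by
        rw [he]; simp [Equiv.piEquivPiSubtypeProd, i.2]
      rw [this]
    have h2 : ∑ i : {i // P i}, a i.1 * (if (e.symm (u, y)) i.1 then (-1 : ℝ) else 1)
        = v * ((p : ℝ) - 2 * (cnt u : ℝ)) := by
      have h3 : ∀ i : {i // P i}, a i.1 * (if (e.symm (u, y)) i.1 then (-1 : ℝ) else 1)
          = v * (1 - 2 * (if u i ≠ c i then 1 else 0)) := by
        intro i
        have h4 : (e.symm (u, y)) i.1 = u i := by
          rw [he]; simp [Equiv.piEquivPiSubtypeProd, i.2]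
        rw [h4]
        have hai : |a i.1| = v := i.2
        by_cases hneg : a i.1 < 0
        · have hc : c i = true := by simp [c, hneg]
          have ha : a i.1 = -v := by rw [← hai, abs_of_neg hneg]; ring
          rw [hc, ha]
          cases u i <;> norm_num
        · have hc : c i = false := by simp [c, hneg]
          have ha : a i.1 = v := by rw [← hai, abs_of_nonneg (not_lt.mp hneg)]
          rw [hc, ha]
          cases u i <;> norm_num
      rw [Finset.sum_congr rfl (fun i _ => h3 i), ← Finset.mul_sum, Finset.sum_sub_distrib,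
        ← Finset.mul_sum, Finset.sum_boole]
      simp [hcnt, hp]
    rw [h1, h2]; ring
  -- the residual sum is small
  have hrho : ∑ i : {i // ¬ P i}, |a i.1| ≤ v := by
    have h := hblk i0 (fun j => hi0 j (mem_univ _))
    have h1 : ∑ i : {i // ¬ P i}, |a i.1| = ∑ j ∈ univ.filter (fun j => |a j| < |a i0|), |a j| := by
      rw [← Finset.sum_subtype_eq_sum_filter]
      symm
      refine Finset.sum_bij' (fun j _ => ⟨j.1, ?_⟩) (fun j _ => ⟨j.1, ?_⟩) ?_ ?_ ?_ ?_ ?_
      · exact ne_of_lt j.2
      · exact lt_of_le_of_ne (hi0 j.1 (mem_univ _)) j.2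
      · intro j _; exact mem_univ _
      · intro j _; simp
      · intro j _; rfl
      · intro j _; rfl
      · intro j _; rfl
    rw [h1]; exact h
  have hRabs : ∀ y, |R y| ≤ v := by
    intro y
    calc |R y| ≤ ∑ i : {i // ¬ P i}, |a i.1 * (if y i then (-1 : ℝ) else 1)| :=
          Finset.abs_sum_le_sum_abs _ _
      _ = ∑ i : {i // ¬ P i}, |a i.1| := by
          apply Finset.sum_congr rfl; intro i _
          rw [abs_mul]; split_ifs <;> simp
      _ ≤ v := hrho
  have hposu : ∀ u y, 0 < f (e.symm (u, y)) * (a0 + v * ((p : ℝ) - 2 * (cnt u : ℝ)) + R y) := by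
    intro u y
    have h := hpos (e.symm (u, y))
    rw [hval u y] at h
    exact h
  have hcntle : ∀ u, cnt u ≤ p := by
    intro u
    rw [hcnt, hp]
    exact Finset.card_le_univ _
  set K := (range (p + 1)).filter (fun k : ℕ => ∃ y, 0 < a0 + v * ((p : ℝ) - 2 * (k : ℝ)) + R y) with hK
  by_cases hKe : K.Nonempty
  swap
  · -- f is identically -1
    apply Wt_const f (-1) (by norm_num)
    intro x
    have hx : x = e.symm (e x) := (Equiv.symm_apply_apply e x).symm
    rcases hxe : e x with ⟨u, y⟩
    rw [hx, hxe]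
    have h1 : ¬ (0 < a0 + v * ((p : ℝ) - 2 * (cnt u : ℝ)) + R y) := by
      intro h
      apply hKe
      exact ⟨cnt u, by
        rw [hK, Finset.mem_filter, Finset.mem_range]
        exact ⟨Nat.lt_succ_of_le (hcntle u), y, h⟩⟩
    have h2 := hposu u y
    rcases hf (e.symm (u, y)) with h | h
    · rw [h, one_mul] at h2; exact absurd h2 h1
    · exact h
  set κ := K.max' hKe with hκ
  have hκK : κ ∈ K := Finset.max'_mem K hKe
  have hκmax : ∀ k ∈ K, k ≤ κ := fun k hk => Finset.le_max' K k hk
  rw [hK, Finset.mem_filter, Finset.mem_range] at hκK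
  obtain ⟨hκp, y0, hy0⟩ := hκK
  let g : ({i // ¬ P i} → Bool) → ℝ := fun y =>
    if 0 < a0 + v * ((p : ℝ) - 2 * (κ : ℝ)) + R y then 1 else -1
  have hgpm : ∀ y, g y = 1 ∨ g y = -1 := by
    intro y; simp only [g]; split_ifs <;> simp
  -- a point at level κ
  obtain ⟨u0, hu0⟩ : ∃ u, cnt u = κ := by
    obtain ⟨s, _, hs⟩ := Finset.exists_subset_card_eq
      (s := (univ : Finset {i // P i})) (n := κ) (by rw [Finset.card_univ]; omega)
    refine ⟨fun i => if i ∈ s then !(c i) else c i, ?_⟩
    have hfs : (univ.filter (fun i => (if i ∈ s then !(c i) else c i) ≠ c i)) = s := by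
      ext i
      simp only [mem_filter, mem_univ, true_and, ne_eq]
      by_cases h : i ∈ s <;> simp [h]
    rw [← hs]
    change (univ.filter (fun i => (if i ∈ s then !(c i) else c i) ≠ c i)).card = s.card
    rw [hfs]
  have hgpos : ∀ y, 0 < g y * ((a0 + v * ((p : ℝ) - 2 * (κ : ℝ))) + R y) := by
    intro y
    have h := hposu u0 y
    rw [hu0] at h
    simp only [g]
    split_ifs with h1
    · linarith
    · have h2 : a0 + v * ((p : ℝ) - 2 * (κ : ℝ)) + R y ≠ 0 := by
        intro h3; rw [h3, mul_zero] at h; exact lt_irrefl _ h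
      have h3 : a0 + v * ((p : ℝ) - 2 * (κ : ℝ)) + R y < 0 := lt_of_le_of_ne (not_lt.mp h1) h2
      linarith
  have hgW : 5 / 9 ≤ Wt g :=
    Wt_TB g (fun i => a i.1) (a0 + v * ((p : ℝ) - 2 * (κ : ℝ))) hgpm hgpos
  refine block5 P f c κ hp1 (by omega) g hgpm hgW ?_ ?_ ?_
  · intro u y h
    have h' : cnt u < κ := h
    have h1 := hposu u y
    have h2 : 0 < a0 + v * ((p : ℝ) - 2 * (cnt u : ℝ)) + R y := by
      have h3 := abs_le.mp (hRabs y)
      have h4 := abs_le.mp (hRabs y0)
      have h5 : (cnt u : ℝ) + 1 ≤ κ := by exact_mod_cast h'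
      have h6 : v * (cnt u : ℝ) + v ≤ v * κ := by nlinarith
      nlinarith
    rcases hf (e.symm (u, y)) with h7 | h7
    · exact h7
    · rw [h7] at h1; linarith
  · intro u y h
    have h' : κ < cnt u := h
    have h1 := hposu u y
    have h2 : ¬ (0 < a0 + v * ((p : ℝ) - 2 * (cnt u : ℝ)) + R y) := by
      intro h3
      have h4 : cnt u ∈ K := by
        rw [hK, Finset.mem_filter, Finset.mem_range]
        exact ⟨Nat.lt_succ_of_le (hcntle u), y, h3⟩
      have h5 := hκmax _ h4
      omega
    rcases hf (e.symm (u, y)) with h7 | h7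
    · rw [h7, one_mul] at h1; exact absurd h1 h2
    · exact h7
  · intro u y h
    have h' : cnt u = κ := h
    have h1 := hposu u y
    rw [h'] at h1
    have hgoal : f (e.symm (u, y)) = g y := by
      simp only [g]
      split_ifs with h3
      · rcases hf (e.symm (u, y)) with h7 | h7
        · exact h7
        · rw [h7] at h1; linarith
      · rcases hf (e.symm (u, y)) with h7 | h7
        · rw [h7, one_mul] at h1; exact absurd h1 h3
        · exact h7
    exact hgoal


end Pool.Agent.MP_cb3c9c_an.TOP
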