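import Pool.Agent.MP_cb3c9c_an.TOP.Five
import Pool.Agent.MP_cb3c9c_an.TOP.Main5

set_option autoImplicit false

open Finset

namespace Pool.Agent.MP_cb3c9c_an.FOUR

open Pool.Agent.MP_cb3c9c_an.UNI

variable {n : ℕ}

theorem sum_compl_insert (w : Fin n → ℝ) (s : Finset (Fin n)) (j : Fin n) (hj : j ∉ s) :
    ∑ i ∈ sᶜ, |w i| = |w j| + ∑ i ∈ (insert j s)ᶜ, |w i| := by
  have h1 := sum_add_sum_compl s (fun i => |w i|)
  have h2 := sum_add_sum_compl (insert j s) (fun i => |w i|)
  rw [sum_insert hj] at h2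
  linarith

/-- five sorted heads -/
theorem five_main (f : (Fin n → Bool) → ℝ) (w : Fin n → ℝ)
    (hf : ∀ x, f x = 1 ∨ f x = -1) (hpos : ∀ x, 0 < f x * Rf w x)
    (j1 j2 j3 j4 j5 : Fin n) (h12 : j1 ≠ j2) (h13 : j1 ≠ j3) (h14 : j1 ≠ j4) (h15 : j1 ≠ j5)
    (h23 : j2 ≠ j3) (h24 : j2 ≠ j4) (h25 : j2 ≠ j5) (h34 : j3 ≠ j4) (h35 : j3 ≠ j5) (h45 : j4 ≠ j5)
    (o12 : w j2 ≤ w j1) (o23 : w j3 ≤ w j2) (o34 : w j4 ≤ w j3) (o45 : w j5 ≤ w j4) (o5 : 0 ≤ w j5)
    (hd : ∑ i ∈ ({j1, j2, j3, j4, j5} : Finset (Fin n))ᶜ, |w i| ≤ w j4 ∨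
      (w j5 = 0 ∧ ∑ i ∈ ({j1, j2, j3, j4, j5} : Finset (Fin n))ᶜ, |w i| ≤ w j2)) :
    2 / Real.pi ≤ W1 f := by
  classical
  set ρ := ∑ i ∈ ({j1, j2, j3, j4, j5} : Finset (Fin n))ᶜ, |w i| with hρ
  have c1 : insert j5 ({j1, j2, j3, j4} : Finset (Fin n)) = {j1, j2, j3, j4, j5} := by
    ext i; simp only [mem_insert, mem_singleton]
    constructor
    · rintro (h | h | h | h | h) <;> simp [h]
    · rintro (h | h | h | h | h) <;> simp [h]
  have c2 : insert j4 ({j1, j2, j3} : Finset (Fin n)) = {j1, j2, j3, j4} := by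
    ext i; simp only [mem_insert, mem_singleton]
    constructor
    · rintro (h | h | h | h) <;> simp [h]
    · rintro (h | h | h | h) <;> simp [h]
  have c3 : insert j3 ({j1, j2} : Finset (Fin n)) = {j1, j2, j3} := by
    ext i; simp only [mem_insert, mem_singleton]
    constructor
    · rintro (h | h | h) <;> simp [h]
    · rintro (h | h | h) <;> simp [h]
  have r4 : ∑ i ∈ ({j1, j2, j3, j4} : Finset (Fin n))ᶜ, |w i| = w j5 + ρ := by
    rw [sum_compl_insert w {j1, j2, j3, j4} j5 (by simp [h15.symm, h25.symm, h35.symm, h45.symm]),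
      c1, abs_of_nonneg o5]
  have r3 : ∑ i ∈ ({j1, j2, j3} : Finset (Fin n))ᶜ, |w i| = w j4 + (w j5 + ρ) := by
    rw [sum_compl_insert w {j1, j2, j3} j4 (by simp [h14.symm, h24.symm, h34.symm]), c2, r4,
      abs_of_nonneg (o5.trans o45)]
  have r2 : ∑ i ∈ ({j1, j2} : Finset (Fin n))ᶜ, |w i| = w j3 + (w j4 + (w j5 + ρ)) := by
    rw [sum_compl_insert w {j1, j2} j3 (by simp [h13.symm, h23.symm]), c3, r3,
      abs_of_nonneg (o5.trans (o45.trans o34))]
  by_cases hi : w j3 + (w j4 + (w j5 + ρ)) ≤ w j1 + w j2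
  · exact pair_dom f w hf hpos j1 j2 h12 (by rw [r2]; exact hi)
  by_cases hii : w j5 + ρ ≤ w j2 + w j3 + w j4 - w j1
  · exact quad_dom f w hf hpos {j1, j2, j3, j4} j1 j2 j3 j4 h12 h13 h14 h23 h24 h34 rfl o12 o23 o34
      (o5.trans o45) (by rw [r4]; exact hii)
  · push Not at hi hii
    rcases hd with hd | ⟨hd0, hd⟩
    · exact quint_dom f w hf hpos {j1, j2, j3, j4, j5} j1 j2 j3 j4 j5 h12 h13 h14 h15 h23 h24 h25
        h34 h35 h45 rfl o12 o23 o34 o45 o5 (by linarith) (by linarith)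
    · exfalso
      linarith

/-- a head of exactly five weights, not sorted -/
theorem dom5 (f : (Fin n → Bool) → ℝ) (w : Fin n → ℝ)
    (hf : ∀ x, f x = 1 ∨ f x = -1) (hpos : ∀ x, 0 < f x * Rf w x) (hw : ∀ i, 0 ≤ w i)
    (s t : Finset (Fin n))
    (hc : s.card = 5) (ht : ∀ i ∈ t, ∑ i ∈ sᶜ, |w i| ≤ w i) (hts : t ⊆ s)
    (hd : 4 ≤ t.card ∨ (2 ≤ t.card ∧ ∃ i ∈ s, w i = 0)) : 2 / Real.pi ≤ W1 f := by
  classical
  obtain ⟨j1, hj1, hmax1⟩ := exists_max_image s w (card_pos.mp (by omega))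
  have hc1 : (s.erase j1).card = 4 := by rw [card_erase_of_mem hj1, hc]
  obtain ⟨j2, hj2, hmax2⟩ := exists_max_image (s.erase j1) w (card_pos.mp (by omega))
  have hc2 : ((s.erase j1).erase j2).card = 3 := by rw [card_erase_of_mem hj2, hc1]
  obtain ⟨j3, hj3, hmax3⟩ := exists_max_image ((s.erase j1).erase j2) w (card_pos.mp (by omega))
  have hc3 : (((s.erase j1).erase j2).erase j3).card = 2 := by rw [card_erase_of_mem hj3, hc2]
  obtain ⟨j4, hj4, hmax4⟩ := exists_max_image (((s.erase j1).erase j2).erase j3) w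
    (card_pos.mp (by omega))
  have hc4 : ((((s.erase j1).erase j2).erase j3).erase j4).card = 1 := by
    rw [card_erase_of_mem hj4, hc3]
  obtain ⟨j5, hj5⟩ := card_eq_one.mp hc4
  have hj5m : j5 ∈ (((s.erase j1).erase j2).erase j3).erase j4 := by
    rw [hj5]; exact mem_singleton_self _
  have q2 := mem_erase.mp hj2
  have q3 := mem_erase.mp hj3
  have q3' := mem_erase.mp q3.2
  have q4 := mem_erase.mp hj4
  have q4' := mem_erase.mp q4.2
  have q4'' := mem_erase.mp q4'.2
  have q5 := mem_erase.mp hj5m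
  have q5' := mem_erase.mp q5.2
  have q5'' := mem_erase.mp q5'.2
  have q5''' := mem_erase.mp q5''.2
  have hs : s = {j1, j2, j3, j4, j5} := by
    rw [← insert_erase hj1, ← insert_erase hj2, ← insert_erase hj3, ← insert_erase hj4, hj5]
  have o12 : w j2 ≤ w j1 := hmax1 j2 q2.2
  have o23 : w j3 ≤ w j2 := hmax2 j3 (mem_erase.mpr ⟨q3'.1, q3'.2⟩)
  have o34 : w j4 ≤ w j3 := hmax3 j4 q4.2
  have o45 : w j5 ≤ w j4 := hmax4 j5 q5.2
  refine five_main f w hf hpos j1 j2 j3 j4 j5 q2.1.symm q3'.1.symm q4''.1.symm q5'''.1.symm q3.1.symm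
    q4'.1.symm q5''.1.symm q4.1.symm q5'.1.symm q5.1.symm o12 o23 o34 o45 (hw j5) ?_
  rw [← hs]
  rcases hd with hd | ⟨hd, i0, hi0, hi0'⟩
  · left
    by_contra hcon
    push Not at hcon
    have : t ⊆ {j1, j2, j3} := by
      intro i hi
      have h1 := ht i hi
      have h2 := hts hi
      rw [hs] at h2
      simp only [mem_insert, mem_singleton] at h2 ⊢
      rcases h2 with h | h | h | h | h
      · left; exact h
      · right; left; exact h
      · right; right; exact h
      · subst h; linarith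
      · subst h; linarith
    have h3 := card_le_card this
    have h4 : ({j1, j2, j3} : Finset (Fin n)).card ≤ 3 := card_le_three
    omega
  · right
    constructor
    · have h5 : w j5 ≤ w i0 := by
        rw [hs] at hi0
        simp only [mem_insert, mem_singleton] at hi0
        rcases hi0 with h | h | h | h | h <;> rw [h] <;> linarith
      have := hw j5
      linarith
    · by_contra hcon
      push Not at hcon
      have : t ⊆ {j1} := by
        intro i hi
        have h1 := ht i hi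
        have h2 := hts hi
        rw [hs] at h2
        simp only [mem_insert, mem_singleton] at h2 ⊢
        rcases h2 with h | h | h | h | h
        · exact h
        · subst h; linarith
        · subst h; linarith
        · subst h; linarith
        · subst h; linarith
      have h3 := card_le_card this
      rw [card_singleton] at h3
      omega

theorem Rf_mask (w : Fin n → ℝ) (x : Fin n → Bool) :
    Rf w (fun i => xor (decide (w i < 0)) (x i)) = Rf (fun i => |w i|) x := by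
  unfold Rf
  apply sum_congr rfl
  intro i _
  rw [sg_xor]
  by_cases h : w i < 0
  · simp only [h, decide_true, sgT, abs_of_neg h]; push_cast; ring
  · simp only [h, decide_false, sgF, abs_of_nonneg (not_lt.mp h)]; push_cast; ring

theorem Rf_tl2 (w : Fin n → ℝ) (x : Fin (n + 2) → Bool) :
    Rf (Fin.cons 0 (Fin.cons 0 w : Fin (n + 1) → ℝ) : Fin (n + 2) → ℝ) x = Rf w (tl2 x) := by
  unfold Rf
  rw [Fin.sum_univ_succ, Fin.sum_univ_succ]
  simp [tl2]

/-- homogeneous form: `s` is a head of at most five weights, `t ⊆ s` the dominating ones -/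
theorem dom_hom (f : (Fin n → Bool) → ℝ) (w : Fin n → ℝ)
    (hf : ∀ x, f x = 1 ∨ f x = -1) (hpos : ∀ x, 0 < f x * Rf w x) (s t : Finset (Fin n))
    (hts : t ⊆ s) (hc : s.card ≤ 5) (hd : ∀ i ∈ t, ∑ j ∈ sᶜ, |w j| ≤ |w i|)
    (hcard : 4 ≤ t.card ∨ (2 ≤ t.card ∧ s.card ≤ 4)) :
    2 / Real.pi ≤ W1 f := by
  classical
  rw [← W1_mask (fun i => decide (w i < 0)) f]
  set f' : (Fin n → Bool) → ℝ := fun x => f (fun i => xor (decide (w i < 0)) (x i)) with hf'
  set w' : Fin n → ℝ := fun i => |w i| with hw'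
  have hf1 : ∀ x, f' x = 1 ∨ f' x = -1 := fun x => hf _
  have hpos' : ∀ x, 0 < f' x * Rf w' x := by
    intro x
    rw [hw', ← Rf_mask w x]
    exact hpos _
  have hd' : ∀ i ∈ t, ∑ j ∈ sᶜ, |w' j| ≤ w' i := by
    intro i hi
    have := hd i hi
    simpa [hw'] using this
  rw [← W1_tl2 f', ← W1_tl2 (fun x => f' (tl2 x))]
  set w2 : Fin (n + 2 + 2) → ℝ := Fin.cons 0 (Fin.cons 0
    (Fin.cons 0 (Fin.cons 0 w' : Fin (n + 1) → ℝ) : Fin (n + 2) → ℝ) : Fin (n + 2 + 1) → ℝ) with hw2
  have hemb : Function.Injective (fun i : Fin n => i.succ.succ.succ.succ) := by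
    intro a b h
    simpa using h
  let emb : Fin n ↪ Fin (n + 2 + 2) := ⟨fun i => i.succ.succ.succ.succ, hemb⟩
  have hwe : ∀ i, w2 (emb i) = w' i := by
    intro i
    rw [hw2]
    show (Fin.cons 0 (Fin.cons 0
      (Fin.cons 0 (Fin.cons 0 w' : Fin (n + 1) → ℝ) : Fin (n + 2) → ℝ) : Fin (n + 2 + 1) → ℝ) :
      Fin (n + 2 + 2) → ℝ) i.succ.succ.succ.succ = w' i
    simp only [Fin.cons_succ]
  have hcases : ∀ i : Fin (n + 2 + 2), (∃ k, emb k = i) ∨ w2 i = 0 := by
    intro i
    refine Fin.cases ?_ (fun k => ?_) i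
    · right; rfl
    · refine Fin.cases ?_ (fun k => ?_) k
      · right; rfl
      · refine Fin.cases ?_ (fun k => ?_) k
        · right; rfl
        · refine Fin.cases ?_ (fun k => ?_) k
          · right; rfl
          · left; exact ⟨k, rfl⟩
  have hw2nn : ∀ i, 0 ≤ w2 i := by
    intro i
    rcases hcases i with ⟨k, rfl⟩ | h
    · rw [hwe]; exact abs_nonneg _
    · rw [h]
  set D : Finset (Fin (n + 2 + 2)) := (univ.map emb)ᶜ with hD
  have hDc : D.card = 4 := by
    rw [hD, card_compl, card_map, card_univ, Fintype.card_fin, Fintype.card_fin]; omega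
  have hD0 : ∀ i ∈ D, w2 i = 0 := by
    intro i hi
    rw [hD, mem_compl, mem_map] at hi
    rcases hcases i with ⟨k, hk⟩ | h
    · exact absurd ⟨k, mem_univ _, hk⟩ hi
    · exact h
  have hdisj : Disjoint (s.map emb) D := by
    rw [disjoint_left]
    intro i hi hiD
    rw [hD, mem_compl, mem_map] at hiD
    obtain ⟨k, _, hk⟩ := mem_map.mp hi
    exact hiD ⟨k, mem_univ _, hk⟩
  by_cases hs0 : 1 ≤ s.card
  swap
  · exfalso
    have := card_le_card hts
    omega
  obtain ⟨S, hS1, hS2, hS3⟩ := exists_subsuperset_card_eq (s := s.map emb) (t := s.map emb ∪ D) (n := 5)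
    subset_union_left (by rw [card_map]; exact hc) (by
      rw [card_union_of_disjoint hdisj, hDc, card_map]; omega)
  have hsum : ∑ i ∈ Sᶜ, |w2 i| ≤ ∑ j ∈ sᶜ, |w' j| := by
    have h1 : ∑ i ∈ Sᶜ, |w2 i| ≤ ∑ i ∈ (s.map emb)ᶜ, |w2 i| := by
      apply sum_le_sum_of_subset_of_nonneg
      · exact compl_subset_compl.mpr hS1
      · intro i _ _; exact abs_nonneg _
    have h2 : ∑ i ∈ (s.map emb)ᶜ, |w2 i| = ∑ j ∈ sᶜ, |w' j| := by
      have h3 := sum_add_sum_compl (s.map emb) (fun i => |w2 i|)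
      have h4 := sum_add_sum_compl s (fun i => |w' i|)
      have h5 : ∑ i ∈ s.map emb, |w2 i| = ∑ i ∈ s, |w' i| := by
        rw [sum_map]
        apply sum_congr rfl
        intro i _
        rw [hwe]
      have h6 : ∑ i, |w2 i| = ∑ i, |w' i| := by
        rw [Fin.sum_univ_succ, Fin.sum_univ_succ, Fin.sum_univ_succ, Fin.sum_univ_succ, hw2]
        simp only [Fin.cons_succ, Fin.cons_zero, abs_zero, zero_add]
      linarith
    linarith
  apply dom5 (fun x => f' (tl2 (tl2 x))) w2 (fun x => hf1 _) _ hw2nn S (t.map emb) hS3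
  · intro i hi
    obtain ⟨k, hk, rfl⟩ := mem_map.mp hi
    rw [hwe]
    exact hsum.trans (hd' k hk)
  · intro i hi
    obtain ⟨k, hk, rfl⟩ := mem_map.mp hi
    exact hS1 (mem_map_of_mem emb (hts hk))
  · rw [card_map]
    rcases hcard with h | ⟨h, h'⟩
    · left; exact h
    · right
      refine ⟨h, ?_⟩
      have h7 : ¬ S ⊆ s.map emb := by
        intro h8
        have := card_le_card h8
        rw [hS3, card_map] at this
        omega
      obtain ⟨i, hi1, hi2⟩ := not_subset.mp h7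
      refine ⟨i, hi1, hD0 i ?_⟩
      rcases mem_union.mp (hS2 hi1) with h9 | h9
      · exact absurd h9 hi2
      · exact h9
  · intro x
    rw [hw2, Rf_tl2, Rf_tl2]
    exact hpos' _

/-- the odd extension -/
def hom (f : (Fin n → Bool) → ℝ) (y : Fin (n + 1) → Bool) : ℝ :=
  if y 0 then - f (fun i => !(y i.succ)) else f (fun i => y i.succ)

theorem W1_hom (f : (Fin n → Bool) → ℝ) : W1 (hom f) = W1 f := by
  have k1 : ∀ x : Fin n → Bool, hom f (Fin.cons false x) = f x := by
    intro x; unfold hom; simp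
  have k2 : ∀ x : Fin n → Bool, hom f (Fin.cons true x) = - f (fun i => !(x i)) := by
    intro x; unfold hom; simp
  have hneg : ∀ G : (Fin n → Bool) → ℝ, E (fun x => - G x) = - E G := by
    intro G
    have := E_mul (-1) G
    simpa using this
  have e0 : E (hom f) = 0 := by
    rw [E_succ]
    simp only [k1, k2]
    rw [hneg (fun x => f (fun i => !(x i))), E_neg f]
    have : E (fun x => f x) = E f := rfl
    rw [this]; ring
  have e1 : E (fun y => hom f y * (sg (y 0) : ℝ)) = E f := by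
    rw [E_succ]
    simp only [k1, k2, Fin.cons_zero, sgF, sgT]
    have h1 : E (fun x : Fin n → Bool => f x * ((1:ℤ) : ℝ)) = E f := by
      apply E_congr; intro x; push_cast; ring
    have h2 : E (fun x : Fin n → Bool => - f (fun i => !(x i)) * ((-1:ℤ) : ℝ)) = E f := by
      rw [← E_neg f]
      apply E_congr; intro x; push_cast; ring
    rw [h1, h2]; ring
  have e2 : ∀ i : Fin n, E (fun y => hom f y * (sg (y i.succ) : ℝ)) = E (fun x => f x * (sg (x i) : ℝ)) := by
    intro i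
    rw [E_succ]
    simp only [k1, k2, Fin.cons_succ]
    have h2 : E (fun x : Fin n → Bool => - f (fun i => !(x i)) * (sg (x i) : ℝ))
        = E (fun x => f x * (sg (x i) : ℝ)) := by
      rw [← E_neg (fun x => f x * (sg (x i) : ℝ))]
      apply E_congr
      intro x
      rw [sg_not]; push_cast; ring
    rw [h2]; ring
  unfold W1
  rw [e0, Fin.sum_univ_succ, e1]
  simp_rw [e2]
  ring

theorem hom_pm (f : (Fin n → Bool) → ℝ) (hf : ∀ x, f x = 1 ∨ f x = -1) (y : Fin (n + 1) → Bool) :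
    hom f y = 1 ∨ hom f y = -1 := by
  unfold hom
  split_ifs
  · rcases hf (fun i => !(y i.succ)) with h | h <;> rw [h]
    · right; rfl
    · left; ring
  · exact hf _

theorem hom_pos (f : (Fin n → Bool) → ℝ) (c : Fin (n + 1) → ℝ)
    (hpos : ∀ x, 0 < f x * (c 0 + ∑ i : Fin n, c i.succ * (if x i then (-1:ℝ) else 1)))
    (y : Fin (n + 1) → Bool) : 0 < hom f y * Rf c y := by
  unfold hom
  have hR : Rf c y = c 0 * (sg (y 0) : ℝ) + ∑ i : Fin n, c i.succ * (sg (y i.succ) : ℝ) := by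
    unfold Rf; rw [Fin.sum_univ_succ]
  rw [hR]
  rcases hy : y 0 with _ | _
  · have := hpos (fun i => y i.succ)
    simp only [← sg_cast] at this
    simp only [sgF]
    simpa using this
  · have := hpos (fun i => !(y i.succ))
    simp only [← sg_cast, sg_not] at this
    push_cast at this
    simp only [mul_neg, sum_neg_distrib] at this
    simp only [sgT, if_true]
    push_cast
    linarith

/-- two, three or four dominating weights, arbitrary threshold -/
theorem dom_thr (f : (Fin n → Bool) → ℝ) (a : Fin n → ℝ) (a0 : ℝ)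
    (hf : ∀ x, f x = 1 ∨ f x = -1)
    (hpos : ∀ x, 0 < f x * (a0 + ∑ i, a i * (if x i then (-1:ℝ) else 1)))
    (s : Finset (Fin n)) (h2 : 2 ≤ s.card) (h4 : s.card ≤ 4)
    (hd : ∀ i ∈ s, ∑ j ∈ sᶜ, |a j| ≤ |a i|) :
    2 / Real.pi ≤ W1 f := by
  classical
  rw [← W1_hom f]
  set c : Fin (n + 1) → ℝ := Fin.cons a0 a with hc
  have hc0 : c 0 = a0 := rfl
  have hcs : ∀ i : Fin n, c i.succ = a i := fun i => rfl
  set se : Fin n ↪ Fin (n + 1) := ⟨Fin.succ, Fin.succ_injective n⟩ with hse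
  have h0 : (0 : Fin (n + 1)) ∉ s.map se := by
    intro h
    obtain ⟨k, _, hk⟩ := mem_map.mp h
    exact Fin.succ_ne_zero k hk
  have hsum : ∑ j ∈ (insert 0 (s.map se))ᶜ, |c j| = ∑ j ∈ sᶜ, |a j| := by
    have h1 := sum_add_sum_compl (insert 0 (s.map se)) (fun j => |c j|)
    have h2 := sum_add_sum_compl s (fun j => |a j|)
    rw [sum_insert h0, sum_map, Fin.sum_univ_succ] at h1
    have h3 : ∑ i ∈ s, |c (se i)| = ∑ i ∈ s, |a i| := rfl
    have h5 : ∑ i : Fin n, |c i.succ| = ∑ i, |a i| := rfl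
    rw [h3, h5] at h1
    linarith
  have hcard : (insert 0 (s.map se)).card = s.card + 1 := by
    rw [card_insert_of_notMem h0, card_map]
  apply dom_hom (hom f) c (hom_pm f hf) (hom_pos f c (by
    intro x
    simp only [hc0, hcs]
    exact hpos x)) (insert 0 (s.map se)) (s.map se) (subset_insert _ _) (by rw [hcard]; omega)
  · intro i hi
    rw [hsum]
    obtain ⟨k, hk, rfl⟩ := mem_map.mp hi
    exact hd k hk
  · rw [card_map, hcard]
    omega

end Pool.Agent.MP_cb3c9c_an.FOUR
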