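import Pool.Agent.MP_cb3c9c_an.TOP.Four

set_option autoImplicit false

open Finset

namespace Pool.Agent.MP_cb3c9c_an.FOUR

open Pool.Agent.MP_cb3c9c_an.UNI

variable {n : ℕ}

theorem two_pi_lt : 2 / Real.pi ≤ 163 / 256 := by
  rw [div_le_div_iff₀ Real.pi_pos (by norm_num)]
  have := Real.pi_gt_d4
  nlinarith

theorem g_W1 (u : Fin n → ℝ) {t : ℝ} (h : NT u t) :
    5 / 9 ≤ (mm u t) ^ 2 + ∑ i, (pp u t i) ^ 2 := by
  have hTB := tbStmt n (g u t) u t (g_pm u t) (by
    intro x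
    rw [Rf_form]
    exact g_pos h x)
  rw [W1_form] at hTB
  exact hTB

theorem mm_sq_le (u : Fin n → ℝ) (t : ℝ) : (mm u t) ^ 2 ≤ 1 := by
  have hb := bessel (g u t)
  have h2 : E (fun x => (g u t x) ^ 2) = 1 := by
    rw [← E_one (n := n)]
    apply E_congr
    intro x
    rcases g_pm u t x with a | a <;> rw [a] <;> norm_num
  rw [h2] at hb
  have h3 : 0 ≤ ∑ i, (E (fun x => g u t x * (sg (x i) : ℝ))) ^ 2 := sum_nonneg (fun _ _ => sq_nonneg _)
  unfold mm
  linarith

theorem mm_abs_le (u : Fin n → ℝ) (t : ℝ) : |mm u t| ≤ 1 := by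
  rw [← sq_le_one_iff_abs_le_one]
  exact mm_sq_le u t

/-- tail weights: the head weights are replaced by zero -/
noncomputable def ut (w : Fin n → ℝ) (s : Finset (Fin n)) (i : Fin n) : ℝ := if i ∈ s then 0 else w i

theorem ut_sum (w : Fin n → ℝ) (s : Finset (Fin n)) : ∑ i, |ut w s i| = ∑ i ∈ sᶜ, |w i| :=
  tb_sum s w

/-- the function as a function with four heads -/
theorem setup (f : (Fin n → Bool) → ℝ) (w : Fin n → ℝ)
    (hf : ∀ x, f x = 1 ∨ f x = -1) (hpos : ∀ x, 0 < f x * Rf w x) (s : Finset (Fin n))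
    (j1 j2 j3 j4 : Fin n) (h12 : j1 ≠ j2) (h13 : j1 ≠ j3) (h14 : j1 ≠ j4) (h23 : j2 ≠ j3)
    (h24 : j2 ≠ j4) (h34 : j3 ≠ j4) (hs : s = {j1, j2, j3, j4}) :
    (ut w s j1 = 0 ∧ ut w s j2 = 0 ∧ ut w s j3 = 0 ∧ ut w s j4 = 0) ∧
    (∀ b1 b2 b3 b4, NT (ut w s) (TT (w j1) (w j2) (w j3) (w j4) b1 b2 b3 b4)) ∧
    f = FF (ut w s) j1 j2 j3 j4 (w j1) (w j2) (w j3) (w j4) := by
  classical
  set u := ut w s with hu
  have m1 : j1 ∈ s := by rw [hs]; simp
  have m2 : j2 ∈ s := by rw [hs]; simp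
  have m3 : j3 ∈ s := by rw [hs]; simp
  have m4 : j4 ∈ s := by rw [hs]; simp
  have u1 : u j1 = 0 := by rw [hu]; unfold ut; rw [if_pos m1]
  have u2 : u j2 = 0 := by rw [hu]; unfold ut; rw [if_pos m2]
  have u3 : u j3 = 0 := by rw [hu]; unfold ut; rw [if_pos m3]
  have u4 : u j4 = 0 := by rw [hu]; unfold ut; rw [if_pos m4]
  set w1 := w j1 with hw1
  set w2 := w j2 with hw2
  set w3 := w j3 with hw3
  set w4 := w j4 with hw4
  -- the form
  have hR : ∀ x, Rf w x = tau j1 j2 j3 j4 w1 w2 w3 w4 x + Rf u x := by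
    intro x
    have h1 : ∑ i ∈ ({j1, j2, j3, j4} : Finset (Fin n)), (w i - u i) * (sg (x i) : ℝ)
        = ∑ i, (w i - u i) * (sg (x i) : ℝ) := by
      apply sum_subset (subset_univ _)
      intro i _ hi
      rw [← hs] at hi
      have : u i = w i := by rw [hu]; unfold ut; rw [if_neg hi]
      rw [this]; ring
    rw [sum_insert (by simp [h12, h13, h14]), sum_insert (by simp [h23, h24]),
      sum_insert (by simp [h34]), sum_singleton, u1, u2, u3, u4] at h1
    have h2 : ∑ i, (w i - u i) * (sg (x i) : ℝ) = Rf w x - Rf u x := by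
      unfold Rf
      rw [← sum_sub_distrib]
      apply sum_congr rfl; intro i _; ring
    unfold tau
    rw [h2] at h1
    linarith
  -- no ties
  have hNT : ∀ b1 b2 b3 b4, NT u (TT w1 w2 w3 w4 b1 b2 b3 b4) := by
    intro b1 b2 b3 b4 x h0
    have h := hpos (upd j1 j2 j3 j4 b1 b2 b3 b4 x)
    have e : Rf w (upd j1 j2 j3 j4 b1 b2 b3 b4 x) = TT w1 w2 w3 w4 b1 b2 b3 b4 + Rf u x := by
      rw [hR]
      have e1 : upd j1 j2 j3 j4 b1 b2 b3 b4 x j1 = b1 := by
        unfold upd; simp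
      have e2 : upd j1 j2 j3 j4 b1 b2 b3 b4 x j2 = b2 := by
        unfold upd; rw [Function.update_of_ne h12.symm]; simp
      have e3 : upd j1 j2 j3 j4 b1 b2 b3 b4 x j3 = b3 := by
        unfold upd; rw [Function.update_of_ne h13.symm, Function.update_of_ne h23.symm]; simp
      have e4 : upd j1 j2 j3 j4 b1 b2 b3 b4 x j4 = b4 := by
        unfold upd
        rw [Function.update_of_ne h14.symm, Function.update_of_ne h24.symm,
          Function.update_of_ne h34.symm]; simp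
      unfold tau TT
      rw [e1, e2, e3, e4]
      unfold upd
      rw [Rf_update u j1 u1, Rf_update u j2 u2, Rf_update u j3 u3, Rf_update u j4 u4]
    rw [e, h0, mul_zero] at h
    exact lt_irrefl _ h
  have hfF : f = FF u j1 j2 j3 j4 w1 w2 w3 w4 := by
    funext x
    have h := hpos x
    rw [hR] at h
    unfold FF g
    split_ifs with h5
    · rcases hf x with h6 | h6
      · exact h6
      · rw [h6] at h; linarith
    · rcases hf x with h6 | h6
      · rw [h6, one_mul] at h; exact absurd h h5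
      · exact h6
  exact ⟨⟨u1, u2, u3, u4⟩, hNT, hfF⟩

/-- two heads (and two dummy coordinates) -/
theorem core2 (f : (Fin n → Bool) → ℝ) (w : Fin n → ℝ)
    (hf : ∀ x, f x = 1 ∨ f x = -1) (hpos : ∀ x, 0 < f x * Rf w x) (s : Finset (Fin n))
    (j1 j2 j3 j4 : Fin n) (h12 : j1 ≠ j2) (h13 : j1 ≠ j3) (h14 : j1 ≠ j4) (h23 : j2 ≠ j3)
    (h24 : j2 ≠ j4) (h34 : j3 ≠ j4) (hs : s = {j1, j2, j3, j4})
    (d3 : w j3 = 0) (d4 : w j4 = 0) (hd : ∑ i ∈ sᶜ, |w i| ≤ w j1 + w j2) :
    2 / Real.pi ≤ W1 f := by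
  classical
  obtain ⟨⟨u1, u2, u3, u4⟩, hNT, hfF⟩ := setup f w hf hpos s j1 j2 j3 j4 h12 h13 h14 h23 h24 h34 hs
  set u := ut w s with hu
  set ρ := ∑ i ∈ sᶜ, |w i| with hρ
  have hρu : ∑ i, |u i| = ρ := ut_sum w s
  set w1 := w j1 with hw1
  set w2 := w j2 with hw2
  set w3 := w j3 with hw3
  set w4 := w j4 with hw4
  have key := four_form u j1 j2 j3 j4 w1 w2 w3 w4 h12 h13 h14 h23 h24 h34 u1 u2 u3 u4 hNT
  rw [← hfF] at key
  have n1 : NT u (w1 + w2) := by
    have := hNT false false false false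
    rw [d3, d4] at this
    simpa [TT, sg] using this
  have n4 : NT u (w1 - w2) := by
    have := hNT false true false false
    rw [d3, d4] at this
    simpa [TT, sg, sub_eq_add_neg] using this
  have a1 : mm u (w1 + w2) = 1 := mm_big n1 (by rw [hρu]; exact hd)
  have b1 : ∀ i, pp u (w1 + w2) i = 0 := fun i => pp_big n1 (by rw [hρu]; exact hd) i
  have hTB := g_W1 u n4
  rw [d3, d4] at key
  simp only [add_zero, sub_zero, a1, b1, zero_add] at key
  have e5 : ∑ i, (pp u (w1 - w2) i + pp u (w1 - w2) i + pp u (w1 - w2) i + pp u (w1 - w2) i) ^ 2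
      = 16 * ∑ i, (pp u (w1 - w2) i) ^ 2 := by
    rw [mul_sum]; apply sum_congr rfl; intro i _; ring
  rw [e5] at key
  refine two_pi_le.trans ?_
  nlinarith

/-- two dominating weights -/
theorem pair_dom (f : (Fin n → Bool) → ℝ) (w : Fin n → ℝ)
    (hf : ∀ x, f x = 1 ∨ f x = -1) (hpos : ∀ x, 0 < f x * Rf w x)
    (j1 j2 : Fin n) (h12 : j1 ≠ j2)
    (hd : ∑ i ∈ ({j1, j2} : Finset (Fin n))ᶜ, |w i| ≤ w j1 + w j2) : 2 / Real.pi ≤ W1 f := by
  classical
  rw [← W1_tl2 f]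
  set w' : Fin (n + 2) → ℝ := Fin.cons 0 (Fin.cons 0 w : Fin (n + 1) → ℝ) with hw'
  have hR : ∀ x : Fin (n + 2) → Bool, Rf w' x = Rf w (tl2 x) := by
    intro x
    unfold Rf
    rw [Fin.sum_univ_succ, Fin.sum_univ_succ, hw']
    simp [tl2]
  have e1 : ∀ i : Fin n, w' i.succ.succ = w i := by
    intro i; rw [hw']; simp only [Fin.cons_succ]
  have hsum : ∑ i ∈ ({j1.succ.succ, j2.succ.succ, 0, Fin.succ 0} : Finset (Fin (n + 2)))ᶜ, |w' i|
      = ∑ i ∈ ({j1, j2} : Finset (Fin n))ᶜ, |w i| := by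
    have h1 := sum_add_sum_compl ({j1.succ.succ, j2.succ.succ, 0, Fin.succ 0} : Finset (Fin (n + 2)))
      (fun i => |w' i|)
    have h2 := sum_add_sum_compl ({j1, j2} : Finset (Fin n)) (fun i => |w i|)
    have hj : j1.succ.succ ≠ j2.succ.succ := by
      intro h; apply h12; simpa using h
    rw [sum_insert (by
        simp only [mem_insert, mem_singleton, not_or]
        exact ⟨hj, Fin.succ_ne_zero _, fun h => Fin.succ_ne_zero j1 (Fin.succ_injective _ h)⟩),
      sum_insert (by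
        simp only [mem_insert, mem_singleton, not_or]
        exact ⟨Fin.succ_ne_zero _, fun h => Fin.succ_ne_zero j2 (Fin.succ_injective _ h)⟩),
      sum_insert (by simp only [mem_singleton]; exact (Fin.succ_ne_zero _).symm), sum_singleton,
      e1, e1, Fin.sum_univ_succ, Fin.sum_univ_succ] at h1
    rw [sum_pair h12] at h2
    simp only [e1] at h1
    have z0 : w' 0 = 0 := rfl
    have z1 : w' (Fin.succ 0) = 0 := rfl
    rw [z0, z1, abs_zero] at h1
    linarith
  apply core2 (fun x => f (tl2 x)) w' (fun x => hf _) (fun x => by rw [hR]; exact hpos _)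
    _ j1.succ.succ j2.succ.succ 0 (Fin.succ 0) (fun h => h12 (by simpa using h))
    (Fin.succ_ne_zero _) (fun h => Fin.succ_ne_zero j1 (Fin.succ_injective _ h))
    (Fin.succ_ne_zero _) (fun h => Fin.succ_ne_zero j2 (Fin.succ_injective _ h))
    (Fin.succ_ne_zero _).symm rfl rfl rfl
  rw [hsum, e1, e1]
  exact hd

/-- four heads -/
theorem quad_dom (f : (Fin n → Bool) → ℝ) (w : Fin n → ℝ)
    (hf : ∀ x, f x = 1 ∨ f x = -1) (hpos : ∀ x, 0 < f x * Rf w x) (s : Finset (Fin n))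
    (j1 j2 j3 j4 : Fin n) (h12 : j1 ≠ j2) (h13 : j1 ≠ j3) (h14 : j1 ≠ j4) (h23 : j2 ≠ j3)
    (h24 : j2 ≠ j4) (h34 : j3 ≠ j4) (hs : s = {j1, j2, j3, j4})
    (o12 : w j2 ≤ w j1) (o23 : w j3 ≤ w j2) (o34 : w j4 ≤ w j3) (o4 : 0 ≤ w j4)
    (hd : ∑ i ∈ sᶜ, |w i| ≤ w j2 + w j3 + w j4 - w j1) :
    2 / Real.pi ≤ W1 f := by
  classical
  obtain ⟨⟨u1, u2, u3, u4⟩, hNT, hfF⟩ := setup f w hf hpos s j1 j2 j3 j4 h12 h13 h14 h23 h24 h34 hs
  set u := ut w s with hu
  set ρ := ∑ i ∈ sᶜ, |w i| with hρ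
  have hρu : ∑ i, |u i| = ρ := ut_sum w s
  set w1 := w j1 with hw1
  set w2 := w j2 with hw2
  set w3 := w j3 with hw3
  set w4 := w j4 with hw4
  have key := four_form u j1 j2 j3 j4 w1 w2 w3 w4 h12 h13 h14 h23 h24 h34 u1 u2 u3 u4 hNT
  rw [← hfF] at key
  -- no ties for the eight thresholds
  have n1 : NT u (w1 + w2 + w3 + w4) := by
    have := hNT false false false false; simpa [TT, sg] using this
  have n2 : NT u (w1 + w2 + w3 - w4) := by
    have := hNT false false false true; simpa [TT, sg, sub_eq_add_neg] using this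
  have n3 : NT u (w1 + w2 - w3 + w4) := by
    have := hNT false false true false; simpa [TT, sg, sub_eq_add_neg] using this
  have n4 : NT u (w1 - w2 + w3 + w4) := by
    have := hNT false true false false; simpa [TT, sg, sub_eq_add_neg] using this
  have nB : NT u (w1 + w2 - w3 - w4) := by
    have := hNT false false true true; simpa [TT, sg, sub_eq_add_neg] using this
  have nC : NT u (w1 - w2 + w3 - w4) := by
    have := hNT false true false true; simpa [TT, sg, sub_eq_add_neg] using this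
  have nD : NT u (w1 - w2 - w3 + w4) := by
    have := hNT false true true false; simpa [TT, sg, sub_eq_add_neg] using this
  have nA : NT u (w1 - w2 - w3 - w4) := by
    have := hNT false true true true; simpa [TT, sg, sub_eq_add_neg] using this
  have big : ∀ t, NT u t → ρ ≤ t → mm u t = 1 ∧ ∀ i, pp u t i = 0 := by
    intro t ht h
    exact ⟨mm_big ht (by rw [hρu]; exact h), fun i => pp_big ht (by rw [hρu]; exact h) i⟩
  obtain ⟨a1, b1⟩ := big _ n1 (by linarith)
  obtain ⟨a2, b2⟩ := big _ n2 (by linarith)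
  obtain ⟨a3, b3⟩ := big _ n3 (by linarith)
  obtain ⟨a4, b4⟩ := big _ n4 (by linarith)
  rw [a1, a2, a3, a4] at key
  simp only [b1, b2, b3, b4, zero_add] at key
  have nA' := NT_neg nA
  have a5 := mm_neg nA
  have b5 : ∀ i, pp u (-(w1 - w2 - w3 - w4)) i = pp u (w1 - w2 - w3 - w4) i :=
    fun i => pp_neg nA i
  obtain ⟨a6, b6⟩ := big _ nA' (by linarith)
  rw [a6] at a5
  have a7 : mm u (w1 - w2 - w3 - w4) = -1 := by linarith
  have b7 : ∀ i, pp u (w1 - w2 - w3 - w4) i = 0 := fun i => by rw [← b5, b6]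
  rw [a7] at key
  simp only [b7, add_zero] at key
  have h3 := three u nB nC nD j1 j2 h12 u1 u2
  refine two_pi_lt.trans ?_
  nlinarith

end Pool.Agent.MP_cb3c9c_an.FOUR
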