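import Pool.Agent.MP_cb3c9c_an.TOP.Dom

set_option autoImplicit false

open Finset

namespace Pool.Agent.MP_cb3c9c_an.FOUR

open Pool.Agent.MP_cb3c9c_an.UNI

variable {n : ℕ}

/-! ### adding one weight to the tail -/

theorem Rf_add (u : Fin n → ℝ) (j : Fin n) (v : ℝ) (hu : u j = 0) (x : Fin n → Bool) :
    Rf (Function.update u j v) x = Rf u x + v * (sg (x j) : ℝ) := by
  unfold Rf
  rw [← add_sum_erase univ (fun i => Function.update u j v i * (sg (x i) : ℝ)) (mem_univ j),
    ← add_sum_erase univ (fun i => u i * (sg (x i) : ℝ)) (mem_univ j)]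
  have : ∑ i ∈ univ.erase j, Function.update u j v i * (sg (x i) : ℝ)
      = ∑ i ∈ univ.erase j, u i * (sg (x i) : ℝ) := by
    apply sum_congr rfl
    intro i hi
    rw [Function.update_of_ne (ne_of_mem_erase hi)]
  rw [this, Function.update_self, hu]
  ring

theorem g_split (u : Fin n → ℝ) (j : Fin n) (v t : ℝ) (hu : u j = 0) (b : Bool) (x : Fin n → Bool) :
    g (Function.update u j v) t (Function.update x j b) = g u (t + v * (sg b : ℝ)) x := by
  unfold g
  rw [Rf_add u j v hu, Rf_update u j hu, Function.update_self]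
  have : t + (Rf u x + v * (sg b : ℝ)) = t + v * (sg b : ℝ) + Rf u x := by ring
  rw [this]

theorem NT_split {u : Fin n → ℝ} {j : Fin n} {v t : ℝ} (hu : u j = 0)
    (h : NT (Function.update u j v) t) : NT u (t + v) ∧ NT u (t - v) := by
  constructor
  · intro x hx
    apply h (Function.update x j false)
    rw [Rf_add u j v hu, Rf_update u j hu, Function.update_self, sgF]
    push_cast; linarith
  · intro x hx
    apply h (Function.update x j true)
    rw [Rf_add u j v hu, Rf_update u j hu, Function.update_self, sgT]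
    push_cast; linarith

theorem mm_split (u : Fin n → ℝ) (j : Fin n) (v t : ℝ) (hu : u j = 0) :
    mm (Function.update u j v) t = (mm u (t + v) + mm u (t - v)) / 2 := by
  unfold mm
  rw [E_split j]
  have h1 : E (fun x => g (Function.update u j v) t (Function.update x j false)) = E (g u (t + v)) := by
    apply E_congr
    intro x
    rw [g_split u j v t hu, sgF]; push_cast; rw [mul_one]
  have h2 : E (fun x => g (Function.update u j v) t (Function.update x j true)) = E (g u (t - v)) := by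
    apply E_congr
    intro x
    rw [g_split u j v t hu, sgT]; push_cast
    rw [show t + v * -1 = t - v by ring]
  rw [h1, h2]

theorem pp_split_ne (u : Fin n → ℝ) (j : Fin n) (v t : ℝ) (hu : u j = 0) (i : Fin n) (hi : i ≠ j) :
    pp (Function.update u j v) t i = (pp u (t + v) i + pp u (t - v) i) / 2 := by
  unfold pp
  rw [E_split j]
  have h1 : E (fun x => g (Function.update u j v) t (Function.update x j false)
      * (sg (Function.update x j false i) : ℝ)) = E (fun x => g u (t + v) x * (sg (x i) : ℝ)) := by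
    apply E_congr
    intro x
    rw [g_split u j v t hu, sgF, Function.update_of_ne hi]; push_cast; rw [mul_one]
  have h2 : E (fun x => g (Function.update u j v) t (Function.update x j true)
      * (sg (Function.update x j true i) : ℝ)) = E (fun x => g u (t - v) x * (sg (x i) : ℝ)) := by
    apply E_congr
    intro x
    rw [g_split u j v t hu, sgT, Function.update_of_ne hi]; push_cast
    rw [show t + v * -1 = t - v by ring]
  rw [h1, h2]

theorem pp_split_self (u : Fin n → ℝ) (j : Fin n) (v t : ℝ) (hu : u j = 0) :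
    pp (Function.update u j v) t j = (mm u (t + v) - mm u (t - v)) / 2 := by
  unfold pp
  rw [E_split j]
  have h1 : E (fun x => g (Function.update u j v) t (Function.update x j false)
      * (sg (Function.update x j false j) : ℝ)) = mm u (t + v) := by
    unfold mm
    apply E_congr
    intro x
    rw [g_split u j v t hu, Function.update_self, sgF]; push_cast; rw [mul_one, mul_one]
  have h2 : E (fun x => g (Function.update u j v) t (Function.update x j true)
      * (sg (Function.update x j true j) : ℝ)) = - mm u (t - v) := by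
    have h3 : - mm u (t - v) = E (fun x => (-1) * g u (t - v) x) := by
      rw [E_mul]; unfold mm; ring
    rw [h3]
    apply E_congr
    intro x
    rw [g_split u j v t hu, Function.update_self, sgT]; push_cast
    rw [show t + v * -1 = t - v by ring]; ring
  rw [h1, h2]; ring

/-! ### four thresholds -/

theorem real4 (a b c d : ℝ) (ha : 0 ≤ a) (hb : 0 ≤ b) (hc : 0 ≤ c) (hd : 0 ≤ d)
    (ha1 : a ≤ 1) (hb1 : b ≤ 1) (hc1 : c ≤ 1) (hd1 : d ≤ 1) :
    |a - b| + |a - c| + |a - d| + |b - c| + |b - d| + |c - d| ≤ 4 := by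
  rcases abs_cases (a - b) with ⟨h1, h1'⟩ | ⟨h1, h1'⟩ <;> rcases abs_cases (a - c) with ⟨h2, h2'⟩ | ⟨h2, h2'⟩ <;>
    rcases abs_cases (a - d) with ⟨h3, h3'⟩ | ⟨h3, h3'⟩ <;> rcases abs_cases (b - c) with ⟨h4, h4'⟩ | ⟨h4, h4'⟩ <;>
    rcases abs_cases (b - d) with ⟨h5, h5'⟩ | ⟨h5, h5'⟩ <;> rcases abs_cases (c - d) with ⟨h6, h6'⟩ | ⟨h6, h6'⟩ <;>
    rw [h1, h2, h3, h4, h5, h6] <;> linarith

theorem four_ineq (u : Fin n → ℝ) {r s t v : ℝ} (hr : NT u r) (hs : NT u s) (ht : NT u t) (hv : NT u v)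
    (j1 j2 : Fin n) (hj : j1 ≠ j2) (h1 : u j1 = 0) (h2 : u j2 = 0) :
    56 / 9 ≤ 4 * ((mm u r) ^ 2 + (mm u s) ^ 2 + (mm u t) ^ 2 + (mm u v) ^ 2)
      + ∑ i, (pp u r i + pp u s i + pp u t i + pp u v i) ^ 2 := by
  have a1 := pair u hr hs j1 j2 hj h1 h2
  have a2 := pair u hr ht j1 j2 hj h1 h2
  have a3 := pair u hr hv j1 j2 hj h1 h2
  have a4 := pair u hs ht j1 j2 hj h1 h2
  have a5 := pair u hs hv j1 j2 hj h1 h2
  have a6 := pair u ht hv j1 j2 hj h1 h2
  have b1 := pp_dist hr hs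
  have b2 := pp_dist hr ht
  have b3 := pp_dist hr hv
  have b4 := pp_dist hs ht
  have b5 := pp_dist hs hv
  have b6 := pp_dist ht hv
  have c1 := real4 (|mm u r|) (|mm u s|) (|mm u t|) (|mm u v|) (abs_nonneg _) (abs_nonneg _)
    (abs_nonneg _) (abs_nonneg _) (mm_abs_le u r) (mm_abs_le u s) (mm_abs_le u t) (mm_abs_le u v)
  have d1 : ∑ i, (pp u r i + pp u s i + pp u t i + pp u v i) ^ 2
        + 2 * ∑ i, ((pp u r i) ^ 2 + (pp u s i) ^ 2 + (pp u t i) ^ 2 + (pp u v i) ^ 2)
      = ∑ i, (pp u s i + pp u r i) ^ 2 + ∑ i, (pp u t i + pp u r i) ^ 2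
        + ∑ i, (pp u v i + pp u r i) ^ 2 + ∑ i, (pp u t i + pp u s i) ^ 2
        + ∑ i, (pp u v i + pp u s i) ^ 2 + ∑ i, (pp u v i + pp u t i) ^ 2 := by
    rw [mul_sum, ← sum_add_distrib, ← sum_add_distrib, ← sum_add_distrib, ← sum_add_distrib,
      ← sum_add_distrib, ← sum_add_distrib]
    apply sum_congr rfl; intro i _; ring
  have d2 : ∑ i, (pp u r i + pp u s i + pp u t i + pp u v i) ^ 2
        + (∑ i, (pp u s i - pp u r i) ^ 2 + ∑ i, (pp u t i - pp u r i) ^ 2
        + ∑ i, (pp u v i - pp u r i) ^ 2 + ∑ i, (pp u t i - pp u s i) ^ 2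
        + ∑ i, (pp u v i - pp u s i) ^ 2 + ∑ i, (pp u v i - pp u t i) ^ 2)
      = 4 * ∑ i, ((pp u r i) ^ 2 + (pp u s i) ^ 2 + (pp u t i) ^ 2 + (pp u v i) ^ 2) := by
    rw [mul_sum, ← sum_add_distrib, ← sum_add_distrib, ← sum_add_distrib, ← sum_add_distrib,
      ← sum_add_distrib, ← sum_add_distrib]
    apply sum_congr rfl; intro i _; ring
  have e1 : |(|mm u s|) - (|mm u r|)| = |(|mm u r|) - (|mm u s|)| := abs_sub_comm _ _
  have e2 : |(|mm u t|) - (|mm u r|)| = |(|mm u r|) - (|mm u t|)| := abs_sub_comm _ _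
  have e3 : |(|mm u v|) - (|mm u r|)| = |(|mm u r|) - (|mm u v|)| := abs_sub_comm _ _
  have e4 : |(|mm u t|) - (|mm u s|)| = |(|mm u s|) - (|mm u t|)| := abs_sub_comm _ _
  have e5 : |(|mm u v|) - (|mm u s|)| = |(|mm u s|) - (|mm u v|)| := abs_sub_comm _ _
  have e6 : |(|mm u v|) - (|mm u t|)| = |(|mm u t|) - (|mm u v|)| := abs_sub_comm _ _
  rw [e1] at b1
  rw [e2] at b2
  rw [e3] at b3
  rw [e4] at b4
  rw [e5] at b5
  rw [e6] at b6
  have m1 := sq_nonneg (mm u r)
  have m2 := sq_nonneg (mm u s)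
  have m3 := sq_nonneg (mm u t)
  have m4 := sq_nonneg (mm u v)
  linarith

/-- five heads -/
theorem quint_dom (f : (Fin n → Bool) → ℝ) (w : Fin n → ℝ)
    (hf : ∀ x, f x = 1 ∨ f x = -1) (hpos : ∀ x, 0 < f x * Rf w x) (s : Finset (Fin n))
    (j1 j2 j3 j4 j5 : Fin n) (h12 : j1 ≠ j2) (h13 : j1 ≠ j3) (h14 : j1 ≠ j4) (h15 : j1 ≠ j5)
    (h23 : j2 ≠ j3) (h24 : j2 ≠ j4) (h25 : j2 ≠ j5) (h34 : j3 ≠ j4) (h35 : j3 ≠ j5) (h45 : j4 ≠ j5)
    (hs : s = {j1, j2, j3, j4, j5})
    (o12 : w j2 ≤ w j1) (o23 : w j3 ≤ w j2) (o34 : w j4 ≤ w j3) (o45 : w j5 ≤ w j4) (o5 : 0 ≤ w j5)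
    (hd1 : ∑ i ∈ sᶜ, |w i| ≤ w j1 + w j4 + w j5 - w j2 - w j3)
    (hd2 : ∑ i ∈ sᶜ, |w i| ≤ w j2 + w j3 + w j4 + w j5 - w j1) :
    2 / Real.pi ≤ W1 f := by
  classical
  obtain ⟨⟨u1', u2', u3', u4'⟩, hNT, hfF⟩ := setup f w hf hpos {j1, j2, j3, j4} j1 j2 j3 j4
    h12 h13 h14 h23 h24 h34 rfl
  set u' := ut w {j1, j2, j3, j4} with hu'
  set u := ut w s with hu
  set ρ := ∑ i ∈ sᶜ, |w i| with hρ
  have hρu : ∑ i, |u i| = ρ := ut_sum w s
  have m1 : j1 ∈ s := by rw [hs]; simp
  have m2 : j2 ∈ s := by rw [hs]; simp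
  have m3 : j3 ∈ s := by rw [hs]; simp
  have m4 : j4 ∈ s := by rw [hs]; simp
  have m5 : j5 ∈ s := by rw [hs]; simp
  have u1 : u j1 = 0 := by rw [hu]; unfold ut; rw [if_pos m1]
  have u2 : u j2 = 0 := by rw [hu]; unfold ut; rw [if_pos m2]
  have u5 : u j5 = 0 := by rw [hu]; unfold ut; rw [if_pos m5]
  have huu : u' = Function.update u j5 (w j5) := by
    funext i
    by_cases h : i = j5
    · subst h
      rw [Function.update_self, hu']
      unfold ut
      rw [if_neg (by simp [h15.symm, h25.symm, h35.symm, h45.symm])]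
    · rw [Function.update_of_ne h, hu', hu]
      unfold ut
      have : (i ∈ ({j1, j2, j3, j4} : Finset (Fin n))) ↔ i ∈ s := by
        rw [hs]; simp [h]
      by_cases h2 : i ∈ s
      · rw [if_pos h2, if_pos (this.mpr h2)]
      · rw [if_neg h2, if_neg (fun h3 => h2 (this.mp h3))]
  set w1 := w j1 with hw1
  set w2 := w j2 with hw2
  set w3 := w j3 with hw3
  set w4 := w j4 with hw4
  set w5 := w j5 with hw5
  have key := four_form u' j1 j2 j3 j4 w1 w2 w3 w4 h12 h13 h14 h23 h24 h34 u1' u2' u3' u4' hNT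
  rw [← hfF] at key
  rw [huu] at hNT key
  -- no ties
  have n1 := NT_split u5 (hNT false false false false)
  have n2 := NT_split u5 (hNT false false false true)
  have n3 := NT_split u5 (hNT false false true false)
  have n4 := NT_split u5 (hNT false true false false)
  have nB := NT_split u5 (hNT false false true true)
  have nC := NT_split u5 (hNT false true false true)
  have nD := NT_split u5 (hNT false true true false)
  have nA := NT_split u5 (hNT false true true true)
  have T1 : TT w1 w2 w3 w4 false false false false = w1 + w2 + w3 + w4 := by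
    simp [TT, sg]
  have T2 : TT w1 w2 w3 w4 false false false true = w1 + w2 + w3 - w4 := by
    simp [TT, sg]; ring
  have T3 : TT w1 w2 w3 w4 false false true false = w1 + w2 - w3 + w4 := by
    simp [TT, sg]; ring
  have T4 : TT w1 w2 w3 w4 false true false false = w1 - w2 + w3 + w4 := by
    simp [TT, sg]; ring
  have TB : TT w1 w2 w3 w4 false false true true = w1 + w2 - w3 - w4 := by
    simp [TT, sg]; ring
  have TC : TT w1 w2 w3 w4 false true false true = w1 - w2 + w3 - w4 := by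
    simp [TT, sg]; ring
  have TD : TT w1 w2 w3 w4 false true true false = w1 - w2 - w3 + w4 := by
    simp [TT, sg]; ring
  have TA : TT w1 w2 w3 w4 false true true true = w1 - w2 - w3 - w4 := by
    simp [TT, sg]; ring
  rw [T1] at n1
  rw [T2] at n2
  rw [T3] at n3
  rw [T4] at n4
  rw [TB] at nB
  rw [TC] at nC
  rw [TD] at nD
  rw [TA] at nA
  have big : ∀ t, NT u t → ρ ≤ t → mm u t = 1 ∧ ∀ i, pp u t i = 0 := by
    intro t ht h
    exact ⟨mm_big ht (by rw [hρu]; exact h), fun i => pp_big ht (by rw [hρu]; exact h) i⟩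
  obtain ⟨a1, b1⟩ := big _ n1.1 (by linarith)
  obtain ⟨a1', b1'⟩ := big _ n1.2 (by linarith)
  obtain ⟨a2, b2⟩ := big _ n2.1 (by linarith)
  obtain ⟨a2', b2'⟩ := big _ n2.2 (by linarith)
  obtain ⟨a3, b3⟩ := big _ n3.1 (by linarith)
  obtain ⟨a3', b3'⟩ := big _ n3.2 (by linarith)
  obtain ⟨a4, b4⟩ := big _ n4.1 (by linarith)
  obtain ⟨a4', b4'⟩ := big _ n4.2 (by linarith)
  obtain ⟨aB, bB⟩ := big _ nB.1 (by linarith)
  obtain ⟨aC, bC⟩ := big _ nC.1 (by linarith)
  obtain ⟨aD, bD⟩ := big _ nD.1 (by linarith)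
  have nA' := NT_neg nA.2
  obtain ⟨aA', bA'⟩ := big _ nA' (by linarith)
  have aA : mm u (w1 - w2 - w3 - w4 - w5) = -1 := by
    have := mm_neg nA.2
    rw [aA'] at this
    linarith
  have bA : ∀ i, pp u (w1 - w2 - w3 - w4 - w5) i = 0 := fun i => by
    rw [← pp_neg nA.2 i, bA']
  have hm := mm_split u j5 w5
  simp only [mm_split u j5 w5 _ u5, a1, a1', a2, a2', a3, a3', a4, a4', aB, aC, aD, aA] at key
  -- the sum of squares
  have hS : ∑ i, (pp (Function.update u j5 w5) (w1 + w2 + w3 + w4) i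
        + pp (Function.update u j5 w5) (w1 + w2 + w3 - w4) i
        + pp (Function.update u j5 w5) (w1 + w2 - w3 + w4) i
        + pp (Function.update u j5 w5) (w1 - w2 + w3 + w4) i
        + pp (Function.update u j5 w5) (w1 + w2 - w3 - w4) i
        + pp (Function.update u j5 w5) (w1 - w2 + w3 - w4) i
        + pp (Function.update u j5 w5) (w1 - w2 - w3 + w4) i
        + pp (Function.update u j5 w5) (w1 - w2 - w3 - w4) i) ^ 2
      = ((4 - mm u (w1 + w2 - w3 - w4 - w5) - mm u (w1 - w2 + w3 - w4 - w5)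
        - mm u (w1 - w2 - w3 + w4 - w5) + mm u (w1 - w2 - w3 - w4 + w5)) / 2) ^ 2
        + (∑ i, (pp u (w1 + w2 - w3 - w4 - w5) i + pp u (w1 - w2 + w3 - w4 - w5) i
        + pp u (w1 - w2 - w3 + w4 - w5) i + pp u (w1 - w2 - w3 - w4 + w5) i) ^ 2) / 4 := by
    rw [← add_sum_erase univ (fun i => (pp (Function.update u j5 w5) (w1 + w2 + w3 + w4) i
        + pp (Function.update u j5 w5) (w1 + w2 + w3 - w4) i
        + pp (Function.update u j5 w5) (w1 + w2 - w3 + w4) i
        + pp (Function.update u j5 w5) (w1 - w2 + w3 + w4) i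
        + pp (Function.update u j5 w5) (w1 + w2 - w3 - w4) i
        + pp (Function.update u j5 w5) (w1 - w2 + w3 - w4) i
        + pp (Function.update u j5 w5) (w1 - w2 - w3 + w4) i
        + pp (Function.update u j5 w5) (w1 - w2 - w3 - w4) i) ^ 2) (mem_univ j5),
      ← add_sum_erase univ (fun i => (pp u (w1 + w2 - w3 - w4 - w5) i + pp u (w1 - w2 + w3 - w4 - w5) i
        + pp u (w1 - w2 - w3 + w4 - w5) i + pp u (w1 - w2 - w3 - w4 + w5) i) ^ 2) (mem_univ j5)]
    have e1 : ∑ i ∈ univ.erase j5, (pp (Function.update u j5 w5) (w1 + w2 + w3 + w4) i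
        + pp (Function.update u j5 w5) (w1 + w2 + w3 - w4) i
        + pp (Function.update u j5 w5) (w1 + w2 - w3 + w4) i
        + pp (Function.update u j5 w5) (w1 - w2 + w3 + w4) i
        + pp (Function.update u j5 w5) (w1 + w2 - w3 - w4) i
        + pp (Function.update u j5 w5) (w1 - w2 + w3 - w4) i
        + pp (Function.update u j5 w5) (w1 - w2 - w3 + w4) i
        + pp (Function.update u j5 w5) (w1 - w2 - w3 - w4) i) ^ 2
      = (∑ i ∈ univ.erase j5, (pp u (w1 + w2 - w3 - w4 - w5) i + pp u (w1 - w2 + w3 - w4 - w5) i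
        + pp u (w1 - w2 - w3 + w4 - w5) i + pp u (w1 - w2 - w3 - w4 + w5) i) ^ 2) / 4 := by
      rw [sum_div]
      apply sum_congr rfl
      intro i hi
      have hi' := ne_of_mem_erase hi
      simp only [pp_split_ne u j5 w5 _ u5 i hi', b1, b1', b2, b2', b3, b3', b4, b4', bB, bC, bD, bA]
      ring
    rw [e1]
    simp only [pp_split_self u j5 w5 _ u5, pp_head u _ j5 u5, a1, a1', a2, a2', a3, a3', a4, a4',
      aB, aC, aD, aA]
    ring
  rw [hS] at key
  have h4 := four_ineq u nB.2 nC.2 nD.2 nA.1 j1 j2 h12 u1 u2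
  refine two_pi_lt.trans ?_
  set X2 := mm u (w1 + w2 - w3 - w4 - w5)
  set X3 := mm u (w1 - w2 + w3 - w4 - w5)
  set X4 := mm u (w1 - w2 - w3 + w4 - w5)
  set X5 := mm u (w1 - w2 - w3 - w4 + w5)
  nlinarith [sq_nonneg (X2 + X3 + X4 + X5 + 2)]

end Pool.Agent.MP_cb3c9c_an.FOUR
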