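import Pool.Agent.MP_cb3c9c_an.TOP.Thr
import Pool.Agent.MP_cb3c9c_an.UNI.Head

set_option autoImplicit false

open Finset

namespace Pool.Agent.MP_cb3c9c_an.FOUR

open Pool.Agent.MP_cb3c9c_an.UNI

variable {n : ℕ}

theorem E_split' (j : Fin n) (G : (Fin n → Bool) → ℝ) :
    E G = (∑ b : Bool, E (fun x => G (Function.update x j b))) / 2 := by
  rw [Fintype.sum_bool, E_split j G, add_comm]

/-- update of the four head coordinates -/
def upd (j1 j2 j3 j4 : Fin n) (b1 b2 b3 b4 : Bool) (x : Fin n → Bool) : Fin n → Bool :=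
  Function.update (Function.update (Function.update (Function.update x j4 b4) j3 b3) j2 b2) j1 b1

theorem E_split4 (j1 j2 j3 j4 : Fin n) (G : (Fin n → Bool) → ℝ) :
    E G = (∑ b1 : Bool, ∑ b2 : Bool, ∑ b3 : Bool, ∑ b4 : Bool,
      E (fun x => G (upd j1 j2 j3 j4 b1 b2 b3 b4 x))) / 16 := by
  have h : ∀ b1 b2 b3 : Bool,
      E (fun x => G (Function.update (Function.update (Function.update x j3 b3) j2 b2) j1 b1))
        = (∑ b4 : Bool, E (fun x => G (upd j1 j2 j3 j4 b1 b2 b3 b4 x))) / 2 := by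
    intro b1 b2 b3
    exact E_split' j4 (fun x => G (Function.update (Function.update (Function.update x j3 b3) j2 b2) j1 b1))
  have h2 : ∀ b1 b2 : Bool, E (fun x => G (Function.update (Function.update x j2 b2) j1 b1))
        = (∑ b3 : Bool, (∑ b4 : Bool, E (fun x => G (upd j1 j2 j3 j4 b1 b2 b3 b4 x))) / 2) / 2 := by
    intro b1 b2
    rw [E_split' j3 (fun x => G (Function.update (Function.update x j2 b2) j1 b1))]
    congr 1
    apply sum_congr rfl
    intro b3 _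
    exact h b1 b2 b3
  have h3 : ∀ b1 : Bool, E (fun x => G (Function.update x j1 b1))
        = (∑ b2 : Bool, (∑ b3 : Bool, (∑ b4 : Bool,
            E (fun x => G (upd j1 j2 j3 j4 b1 b2 b3 b4 x))) / 2) / 2) / 2 := by
    intro b1
    rw [E_split' j2 (fun x => G (Function.update x j1 b1))]
    congr 1
    apply sum_congr rfl
    intro b2 _
    exact h2 b1 b2
  rw [E_split' j1 G]
  simp_rw [h3]
  rw [sum_div, sum_div]
  apply sum_congr rfl
  intro b1 _
  rw [sum_div, sum_div, sum_div]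
  apply sum_congr rfl
  intro b2 _
  rw [sum_div, sum_div, sum_div, sum_div]
  apply sum_congr rfl
  intro b3 _
  ring

section heads

variable (u : Fin n → ℝ) (j1 j2 j3 j4 : Fin n) (w1 w2 w3 w4 : ℝ)

/-- head value at a point -/
noncomputable def tau (x : Fin n → Bool) : ℝ :=
  w1 * (sg (x j1) : ℝ) + w2 * (sg (x j2) : ℝ) + w3 * (sg (x j3) : ℝ) + w4 * (sg (x j4) : ℝ)

/-- head value at a pattern -/
noncomputable def TT (b1 b2 b3 b4 : Bool) : ℝ :=
  w1 * (sg b1 : ℝ) + w2 * (sg b2 : ℝ) + w3 * (sg b3 : ℝ) + w4 * (sg b4 : ℝ)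

/-- the function -/
noncomputable def FF (x : Fin n → Bool) : ℝ := g u (tau j1 j2 j3 j4 w1 w2 w3 w4 x) x

theorem E_FF (h12 : j1 ≠ j2) (h13 : j1 ≠ j3) (h14 : j1 ≠ j4) (h23 : j2 ≠ j3) (h24 : j2 ≠ j4)
    (h34 : j3 ≠ j4) (u1 : u j1 = 0) (u2 : u j2 = 0) (u3 : u j3 = 0) (u4 : u j4 = 0)
    (ψ : (Fin n → Bool) → ℝ) :
    E (fun x => FF u j1 j2 j3 j4 w1 w2 w3 w4 x * ψ x)
      = (∑ b1 : Bool, ∑ b2 : Bool, ∑ b3 : Bool, ∑ b4 : Bool,
        E (fun x => g u (TT w1 w2 w3 w4 b1 b2 b3 b4) x * ψ (upd j1 j2 j3 j4 b1 b2 b3 b4 x))) / 16 := by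
  rw [E_split4 j1 j2 j3 j4]
  refine congrArg (fun t : ℝ => t / 16) ?_
  apply sum_congr rfl; intro b1 _
  apply sum_congr rfl; intro b2 _
  apply sum_congr rfl; intro b3 _
  apply sum_congr rfl; intro b4 _
  apply E_congr
  intro x
  have e1 : upd j1 j2 j3 j4 b1 b2 b3 b4 x j1 = b1 := by
    unfold upd; simp
  have e2 : upd j1 j2 j3 j4 b1 b2 b3 b4 x j2 = b2 := by
    unfold upd; rw [Function.update_of_ne h12.symm]; simp
  have e3 : upd j1 j2 j3 j4 b1 b2 b3 b4 x j3 = b3 := by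
    unfold upd; rw [Function.update_of_ne h13.symm, Function.update_of_ne h23.symm]; simp
  have e4 : upd j1 j2 j3 j4 b1 b2 b3 b4 x j4 = b4 := by
    unfold upd
    rw [Function.update_of_ne h14.symm, Function.update_of_ne h24.symm, Function.update_of_ne h34.symm]; simp
  have e5 : FF u j1 j2 j3 j4 w1 w2 w3 w4 (upd j1 j2 j3 j4 b1 b2 b3 b4 x)
      = g u (TT w1 w2 w3 w4 b1 b2 b3 b4) x := by
    unfold FF tau TT
    rw [e1, e2, e3, e4]
    unfold upd
    rw [g_update u _ j1 u1, g_update u _ j2 u2, g_update u _ j3 u3, g_update u _ j4 u4]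
  rw [e5]

end heads

theorem sum_four (c q : Fin n → ℝ) (j1 j2 j3 j4 : Fin n) (h12 : j1 ≠ j2) (h13 : j1 ≠ j3)
    (h14 : j1 ≠ j4) (h23 : j2 ≠ j3) (h24 : j2 ≠ j4) (h34 : j3 ≠ j4)
    (q1 : q j1 = 0) (q2 : q j2 = 0) (q3 : q j3 = 0) (q4 : q j4 = 0)
    (h : ∀ i, i ≠ j1 → i ≠ j2 → i ≠ j3 → i ≠ j4 → c i = q i) :
    ∑ i, (c i) ^ 2 = (c j1) ^ 2 + (c j2) ^ 2 + (c j3) ^ 2 + (c j4) ^ 2 + ∑ i, (q i) ^ 2 := by
  have h1 : ∑ i ∈ ({j1, j2, j3, j4} : Finset (Fin n)), ((c i) ^ 2 - (q i) ^ 2)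
      = ∑ i, ((c i) ^ 2 - (q i) ^ 2) := by
    apply sum_subset (subset_univ _)
    intro i _ hi
    simp only [mem_insert, mem_singleton, not_or] at hi
    rw [h i hi.1 hi.2.1 hi.2.2.1 hi.2.2.2]; ring
  rw [sum_insert (by simp [h12, h13, h14]), sum_insert (by simp [h23, h24]),
    sum_insert (by simp [h34]), sum_singleton, sum_sub_distrib, q1, q2, q3, q4] at h1
  linarith

theorem mm_big {u : Fin n → ℝ} {t : ℝ} (h : NT u t) (ht : ∑ i, |u i| ≤ t) : mm u t = 1 := by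
  unfold mm
  rw [← E_one (n := n)]
  apply E_congr
  intro x
  unfold g
  rw [if_pos]
  have h1 : |Rf u x| ≤ ∑ i, |u i| := by
    unfold Rf
    refine (abs_sum_le_sum_abs _ _).trans (le_of_eq ?_)
    apply sum_congr rfl
    intro i _
    rw [abs_mul]
    rcases sg_sq (x i) with h | h <;> rw [h] <;> simp
  have h2 := (abs_le.mp h1).1
  exact lt_of_le_of_ne (by linarith) (h x).symm

theorem pp_big {u : Fin n → ℝ} {t : ℝ} (h : NT u t) (ht : ∑ i, |u i| ≤ t) (i : Fin n) :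
    pp u t i = 0 := by
  have hb := bessel (g u t)
  have h1 : E (g u t) = 1 := mm_big h ht
  have h2 : E (fun x => (g u t x) ^ 2) = 1 := by
    rw [← E_one (n := n)]
    apply E_congr
    intro x
    rcases g_pm u t x with a | a <;> rw [a] <;> norm_num
  rw [h1, h2] at hb
  have h3 : (E (fun x => g u t x * (sg (x i) : ℝ))) ^ 2
      ≤ ∑ i, (E (fun x => g u t x * (sg (x i) : ℝ))) ^ 2 :=
    single_le_sum (f := fun i => (E (fun x => g u t x * (sg (x i) : ℝ))) ^ 2)
      (fun _ _ => sq_nonneg _) (mem_univ i)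
  have h4 : (pp u t i) ^ 2 ≤ 0 := by
    unfold pp; linarith
  exact pow_eq_zero_iff (two_ne_zero) |>.mp (le_antisymm h4 (sq_nonneg _))

/-- all the patterns -/
theorem four_form (u : Fin n → ℝ) (j1 j2 j3 j4 : Fin n) (w1 w2 w3 w4 : ℝ)
    (h12 : j1 ≠ j2) (h13 : j1 ≠ j3) (h14 : j1 ≠ j4) (h23 : j2 ≠ j3) (h24 : j2 ≠ j4)
    (h34 : j3 ≠ j4) (u1 : u j1 = 0) (u2 : u j2 = 0) (u3 : u j3 = 0) (u4 : u j4 = 0)
    (hNT : ∀ b1 b2 b3 b4, NT u (TT w1 w2 w3 w4 b1 b2 b3 b4)) :
    64 * W1 (FF u j1 j2 j3 j4 w1 w2 w3 w4)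
      = (mm u (w1 + w2 + w3 + w4) + mm u (w1 + w2 + w3 - w4) + mm u (w1 + w2 - w3 + w4)
          + mm u (w1 - w2 + w3 + w4) + mm u (w1 + w2 - w3 - w4) + mm u (w1 - w2 + w3 - w4)
          + mm u (w1 - w2 - w3 + w4) + mm u (w1 - w2 - w3 - w4)) ^ 2
      + (mm u (w1 + w2 + w3 + w4) + mm u (w1 + w2 + w3 - w4) + mm u (w1 + w2 - w3 + w4)
          - mm u (w1 - w2 + w3 + w4) + mm u (w1 + w2 - w3 - w4) - mm u (w1 - w2 + w3 - w4)
          - mm u (w1 - w2 - w3 + w4) - mm u (w1 - w2 - w3 - w4)) ^ 2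
      + (mm u (w1 + w2 + w3 + w4) + mm u (w1 + w2 + w3 - w4) - mm u (w1 + w2 - w3 + w4)
          + mm u (w1 - w2 + w3 + w4) - mm u (w1 + w2 - w3 - w4) + mm u (w1 - w2 + w3 - w4)
          - mm u (w1 - w2 - w3 + w4) - mm u (w1 - w2 - w3 - w4)) ^ 2
      + (mm u (w1 + w2 + w3 + w4) - mm u (w1 + w2 + w3 - w4) + mm u (w1 + w2 - w3 + w4)
          + mm u (w1 - w2 + w3 + w4) - mm u (w1 + w2 - w3 - w4) - mm u (w1 - w2 + w3 - w4)
          + mm u (w1 - w2 - w3 + w4) - mm u (w1 - w2 - w3 - w4)) ^ 2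
      + ∑ i, (pp u (w1 + w2 + w3 + w4) i + pp u (w1 + w2 + w3 - w4) i + pp u (w1 + w2 - w3 + w4) i
          + pp u (w1 - w2 + w3 + w4) i + pp u (w1 + w2 - w3 - w4) i + pp u (w1 - w2 + w3 - w4) i
          + pp u (w1 - w2 - w3 + w4) i + pp u (w1 - w2 - w3 - w4) i) ^ 2 := by
  -- the sixteen thresholds
  have T1 : TT w1 w2 w3 w4 false false false false = w1 + w2 + w3 + w4 := by
    simp [TT, sg]
  have T2 : TT w1 w2 w3 w4 false false false true = w1 + w2 + w3 - w4 := by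
    simp [TT, sg]; ring
  have T3 : TT w1 w2 w3 w4 false false true false = w1 + w2 - w3 + w4 := by
    simp [TT, sg]; ring
  have T4 : TT w1 w2 w3 w4 false true false false = w1 - w2 + w3 + w4 := by
    simp [TT, sg]; ring
  have TB : TT w1 w2 w3 w4 false false true true = w1 + w2 - w3 - w4 := by
    simp [TT, sg]; ring
  have TC : TT w1 w2 w3 w4 false true false true = w1 - w2 + w3 - w4 := by
    simp [TT, sg]; ring
  have TD : TT w1 w2 w3 w4 false true true false = w1 - w2 - w3 + w4 := by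
    simp [TT, sg]; ring
  have TA : TT w1 w2 w3 w4 false true true true = w1 - w2 - w3 - w4 := by
    simp [TT, sg]; ring
  have T1' : TT w1 w2 w3 w4 true true true true = -(w1 + w2 + w3 + w4) := by
    simp [TT, sg]; ring
  have T2' : TT w1 w2 w3 w4 true true true false = -(w1 + w2 + w3 - w4) := by
    simp [TT, sg]; ring
  have T3' : TT w1 w2 w3 w4 true true false true = -(w1 + w2 - w3 + w4) := by
    simp [TT, sg]; ring
  have T4' : TT w1 w2 w3 w4 true false true true = -(w1 - w2 + w3 + w4) := by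
    simp [TT, sg]; ring
  have TB' : TT w1 w2 w3 w4 true true false false = -(w1 + w2 - w3 - w4) := by
    simp [TT, sg]; ring
  have TC' : TT w1 w2 w3 w4 true false true false = -(w1 - w2 + w3 - w4) := by
    simp [TT, sg]; ring
  have TD' : TT w1 w2 w3 w4 true false false true = -(w1 - w2 - w3 + w4) := by
    simp [TT, sg]; ring
  have TA' : TT w1 w2 w3 w4 true false false false = -(w1 - w2 - w3 - w4) := by
    simp [TT, sg]; ring
  have n1 := hNT false false false false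
  have n2 := hNT false false false true
  have n3 := hNT false false true false
  have n4 := hNT false true false false
  have nB := hNT false false true true
  have nC := hNT false true false true
  have nD := hNT false true true false
  have nA := hNT false true true true
  rw [T1] at n1
  rw [T2] at n2
  rw [T3] at n3
  rw [T4] at n4
  rw [TB] at nB
  rw [TC] at nC
  rw [TD] at nD
  rw [TA] at nA
  have hE := E_FF u j1 j2 j3 j4 w1 w2 w3 w4 h12 h13 h14 h23 h24 h34 u1 u2 u3 u4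
  set F := FF u j1 j2 j3 j4 w1 w2 w3 w4 with hF
  have hmean : E F = 0 := by
    have h := hE (fun _ => 1)
    simp only [mul_one] at h
    have e1 : E (fun x => F x) = E F := rfl
    have e2 : ∀ r, E (fun x => g u r x) = mm u r := fun r => rfl
    rw [e1] at h
    simp only [e2, Fintype.sum_bool, T1, T2, T3, T4, TB, TC, TD, TA, T1', T2', T3', T4', TB', TC',
      TD', TA', mm_neg n1, mm_neg n2, mm_neg n3, mm_neg n4, mm_neg nB, mm_neg nC, mm_neg nD,
      mm_neg nA] at h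
    rw [h]; ring
  have hpull : ∀ (r c : ℝ), E (fun x => g u r x * c) = c * mm u r := by
    intro r c
    unfold mm
    rw [← E_mul]
    apply E_congr
    intro x; ring
  have hc : ∀ (j : Fin n) (β : Bool → Bool → Bool → Bool → Bool)
      (hβ : ∀ b1 b2 b3 b4 x, upd j1 j2 j3 j4 b1 b2 b3 b4 x j = β b1 b2 b3 b4),
      E (fun x => F x * (sg (x j) : ℝ)) = (∑ b1 : Bool, ∑ b2 : Bool, ∑ b3 : Bool, ∑ b4 : Bool,
        (sg (β b1 b2 b3 b4) : ℝ) * mm u (TT w1 w2 w3 w4 b1 b2 b3 b4)) / 16 := by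
    intro j β hβ
    rw [hE (fun x => (sg (x j) : ℝ))]
    refine congrArg (fun t : ℝ => t / 16) ?_
    apply sum_congr rfl; intro b1 _
    apply sum_congr rfl; intro b2 _
    apply sum_congr rfl; intro b3 _
    apply sum_congr rfl; intro b4 _
    rw [← hpull]
    apply E_congr
    intro x
    rw [hβ]
  have c1 := hc j1 (fun b1 _ _ _ => b1) (by intro b1 b2 b3 b4 x; unfold upd; simp)
  have c2 := hc j2 (fun _ b2 _ _ => b2) (by
    intro b1 b2 b3 b4 x; unfold upd
    rw [Function.update_of_ne h12.symm]; simp)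
  have c3 := hc j3 (fun _ _ b3 _ => b3) (by
    intro b1 b2 b3 b4 x; unfold upd
    rw [Function.update_of_ne h13.symm, Function.update_of_ne h23.symm]; simp)
  have c4 := hc j4 (fun _ _ _ b4 => b4) (by
    intro b1 b2 b3 b4 x; unfold upd
    rw [Function.update_of_ne h14.symm, Function.update_of_ne h24.symm,
      Function.update_of_ne h34.symm]; simp)
  simp only [Fintype.sum_bool, T1, T2, T3, T4, TB, TC, TD, TA, T1', T2', T3', T4', TB', TC',
      TD', TA', mm_neg n1, mm_neg n2, mm_neg n3, mm_neg n4, mm_neg nB, mm_neg nC, mm_neg nD,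
      mm_neg nA, sgF, sgT] at c1 c2 c3 c4
  push_cast at c1 c2 c3 c4
  have ci : ∀ i, i ≠ j1 → i ≠ j2 → i ≠ j3 → i ≠ j4 → E (fun x => F x * (sg (x i) : ℝ))
      = (pp u (w1 + w2 + w3 + w4) i + pp u (w1 + w2 + w3 - w4) i + pp u (w1 + w2 - w3 + w4) i
          + pp u (w1 - w2 + w3 + w4) i + pp u (w1 + w2 - w3 - w4) i + pp u (w1 - w2 + w3 - w4) i
          + pp u (w1 - w2 - w3 + w4) i + pp u (w1 - w2 - w3 - w4) i) / 8 := by
    intro i i1 i2 i3 i4
    have h := hE (fun x => (sg (x i) : ℝ))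
    have hx : ∀ b1 b2 b3 b4 x, upd j1 j2 j3 j4 b1 b2 b3 b4 x i = x i := by
      intro b1 b2 b3 b4 x; unfold upd
      rw [Function.update_of_ne i1, Function.update_of_ne i2, Function.update_of_ne i3,
        Function.update_of_ne i4]
    have e2 : ∀ r, E (fun x => g u r x * (sg (x i) : ℝ)) = pp u r i := fun r => rfl
    simp only [hx, e2, Fintype.sum_bool, T1, T2, T3, T4, TB, TC, TD, TA, T1', T2', T3', T4', TB',
      TC', TD', TA', pp_neg n1, pp_neg n2, pp_neg n3, pp_neg n4, pp_neg nB, pp_neg nC, pp_neg nD,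
      pp_neg nA] at h
    rw [h]; ring
  have hsum := sum_four (fun i => E (fun x => F x * (sg (x i) : ℝ)))
    (fun i => (pp u (w1 + w2 + w3 + w4) i + pp u (w1 + w2 + w3 - w4) i + pp u (w1 + w2 - w3 + w4) i
          + pp u (w1 - w2 + w3 + w4) i + pp u (w1 + w2 - w3 - w4) i + pp u (w1 - w2 + w3 - w4) i
          + pp u (w1 - w2 - w3 + w4) i + pp u (w1 - w2 - w3 - w4) i) / 8)
    j1 j2 j3 j4 h12 h13 h14 h23 h24 h34
    (by simp only [pp_head u _ j1 u1]; norm_num) (by simp only [pp_head u _ j2 u2]; norm_num)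
    (by simp only [pp_head u _ j3 u3]; norm_num) (by simp only [pp_head u _ j4 u4]; norm_num)
    ci
  have hW : W1 F = (E F) ^ 2 + ∑ i, (E (fun x => F x * (sg (x i) : ℝ))) ^ 2 := rfl
  have hdiv : ∑ i, ((pp u (w1 + w2 + w3 + w4) i + pp u (w1 + w2 + w3 - w4) i + pp u (w1 + w2 - w3 + w4) i
          + pp u (w1 - w2 + w3 + w4) i + pp u (w1 + w2 - w3 - w4) i + pp u (w1 - w2 + w3 - w4) i
          + pp u (w1 - w2 - w3 + w4) i + pp u (w1 - w2 - w3 - w4) i) / 8) ^ 2
      = (∑ i, (pp u (w1 + w2 + w3 + w4) i + pp u (w1 + w2 + w3 - w4) i + pp u (w1 + w2 - w3 + w4) i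
          + pp u (w1 - w2 + w3 + w4) i + pp u (w1 + w2 - w3 - w4) i + pp u (w1 - w2 + w3 - w4) i
          + pp u (w1 - w2 - w3 + w4) i + pp u (w1 - w2 - w3 - w4) i) ^ 2) / 64 := by
    rw [sum_div]
    apply sum_congr rfl
    intro i _
    ring
  rw [hdiv] at hsum
  rw [hW, hsum, hmean, c1, c2, c3, c4]
  ring

end Pool.Agent.MP_cb3c9c_an.FOUR
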