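import Pool.Agent.MP_cb3c9c_an.TOP.Asm

set_option autoImplicit false

open Finset

namespace Pool.Agent.MP_cb3c9c_an.FOUR

open Pool.Agent.MP_cb3c9c_an.UNI

variable {n : ℕ}

theorem E_perm (σ : Equiv.Perm (Fin n)) (G : (Fin n → Bool) → ℝ) :
    E (fun x => G (fun i => x (σ i))) = E G := by
  unfold E
  congr 1
  have hb : Function.Bijective (fun (x : Fin n → Bool) (i : Fin n) => x (σ i)) := by
    constructor
    · intro x y h
      funext i
      have := congrFun h (σ.symm i)
      simpa using this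
    · intro y
      refine ⟨fun i => y (σ.symm i), ?_⟩
      funext i
      simp
  exact hb.sum_comp G

theorem W1_perm (σ : Equiv.Perm (Fin n)) (F : (Fin n → Bool) → ℝ) :
    W1 (fun x => F (fun i => x (σ i))) = W1 F := by
  unfold W1
  rw [E_perm σ F]
  congr 1
  rw [← Equiv.sum_comp σ (fun i => (E (fun x => F (fun i => x (σ i)) * (sg (x i) : ℝ))) ^ 2)]
  apply sum_congr rfl
  intro i _
  rw [← E_perm σ (fun x => F x * (sg (x i) : ℝ))]

theorem Rf_perm (σ : Equiv.Perm (Fin n)) (c : Fin n → ℝ) (x : Fin n → Bool) :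
    Rf c (fun i => x (σ i)) = Rf (fun i => c (σ.symm i)) x := by
  unfold Rf
  rw [← Equiv.sum_comp σ (fun i => c (σ.symm i) * (sg (x i) : ℝ))]
  apply sum_congr rfl
  intro i _
  rw [Equiv.symm_apply_apply]

/-- Any one of the homogeneous weights can be made the threshold. -/
theorem swap_out (f : (Fin n → Bool) → ℝ) (c : Fin (n + 1) → ℝ)
    (hf : ∀ x, f x = 1 ∨ f x = -1)
    (hpos : ∀ x, 0 < f x * (c 0 + ∑ i : Fin n, c i.succ * (if x i then (-1:ℝ) else 1)))
    (e : Fin (n + 1)) :
    ∃ f' : (Fin n → Bool) → ℝ, (∀ x, f' x = 1 ∨ f' x = -1) ∧ W1 f' = W1 f ∧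
      ∀ x, 0 < f' x * (c e + ∑ i : Fin n, c (Equiv.swap 0 e i.succ) * (if x i then (-1:ℝ) else 1)) := by
  set σ : Equiv.Perm (Fin (n + 1)) := Equiv.swap 0 e with hσ
  set F : (Fin (n + 1) → Bool) → ℝ := fun x => hom f (fun i => x (σ i)) with hF
  set f' : (Fin n → Bool) → ℝ := fun x => F (Fin.cons false x) with hf'
  have hoddf : ∀ y : Fin (n + 1) → Bool, hom f (fun i => !(y i)) = - hom f y := by
    intro y
    unfold hom
    rcases hy : y 0 with _ | _
    · simp [hy]
    · simp [hy]
  have hFodd : ∀ x : Fin (n + 1) → Bool, F (fun i => !(x i)) = - F x := by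
    intro x
    exact hoddf (fun i => x (σ i))
  have hhom : hom f' = F := by
    funext y
    unfold hom
    rcases hy : y 0 with _ | _
    · simp only [hf', Bool.false_eq_true, if_false]
      refine congrArg F ?_
      funext i
      refine Fin.cases ?_ (fun k => ?_) i
      · rw [Fin.cons_zero, hy]
      · rw [Fin.cons_succ]
    · simp only [hf', if_true]
      have h1 := hFodd (Fin.cons false (fun k => !(y k.succ)))
      have h2 : (fun i => !((Fin.cons false (fun k => !(y k.succ)) : Fin (n + 1) → Bool) i)) = y := by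
        funext i
        refine Fin.cases ?_ (fun k => ?_) i
        · rw [Fin.cons_zero, hy]; rfl
        · rw [Fin.cons_succ]; simp
      rw [h2] at h1
      exact h1.symm
  have hFpos : ∀ x, 0 < F x * Rf (fun i => c (σ.symm i)) x := by
    intro x
    rw [← Rf_perm σ c x]
    exact hom_pos f c hpos _
  refine ⟨f', fun x => hom_pm f hf _, ?_, ?_⟩
  · rw [← W1_hom f', hhom, hF, W1_perm σ (hom f), W1_hom]
  · intro x
    have h := hFpos (Fin.cons false x)
    have hR : Rf (fun i => c (σ.symm i)) (Fin.cons false x : Fin (n + 1) → Bool)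
        = c e + ∑ i : Fin n, c (σ i.succ) * (if x i then (-1:ℝ) else 1) := by
      unfold Rf
      rw [Fin.sum_univ_succ]
      have h1 : σ.symm 0 = e := by rw [hσ, Equiv.symm_swap, Equiv.swap_apply_left]
      have h2 : ∀ i, σ.symm i = σ i := by intro i; rw [hσ, Equiv.symm_swap]
      beta_reduce
      rw [h1]
      simp only [h2, Fin.cons_zero, Fin.cons_succ, sg_cast]
      simp
    rw [hR] at h
    exact h

theorem W1_Wt (f : (Fin n → Bool) → ℝ) : Pool.Agent.MP_cb3c9c_an.Wt f = W1 f := by
  unfold Pool.Agent.MP_cb3c9c_an.Wt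
  rw [Fintype.card_fin, W1_form]

/-- Dominating heads: all the weights (the constant term counts as one of them) but one are
considered; a nonempty set `s` of them has each absolute weight at least the sum of the absolute
weights outside `s`, and `s` has at most four elements or is flat. -/
theorem head_main (f : (Fin n → Bool) → ℝ) (c : Fin (n + 1) → ℝ)
    (hf : ∀ x, f x = 1 ∨ f x = -1)
    (hpos : ∀ x, 0 < f x * (c 0 + ∑ i : Fin n, c i.succ * (if x i then (-1:ℝ) else 1)))
    (e : Fin (n + 1)) (s : Finset (Fin (n + 1))) (hne : s.Nonempty) (hes : e ∉ s)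
    (hd : ∀ i ∈ s, ∑ j ∈ (insert e s)ᶜ, |c j| ≤ |c i|)
    (hs : s.card ≤ 4 ∨ ∀ i ∈ s, ∀ j ∈ s, |c i| = |c j|) :
    2 / Real.pi ≤ W1 f := by
  classical
  obtain ⟨f', hf1, hW, hpos'⟩ := swap_out f c hf hpos e
  rw [← hW]
  set σ : Equiv.Perm (Fin (n + 1)) := Equiv.swap 0 e with hσ
  have hinj : Function.Injective (fun i : Fin n => σ i.succ) := by
    intro a b h
    exact Fin.succ_injective n (σ.injective h)
  set emb : Fin n ↪ Fin (n + 1) := ⟨fun i => σ i.succ, hinj⟩ with hemb
  have hembv : ∀ i, emb i = σ i.succ := fun i => rfl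
  set s' : Finset (Fin n) := univ.filter (fun i => emb i ∈ s) with hs'
  have hmap : s'.map emb = s := by
    ext j
    rw [mem_map]
    constructor
    · rintro ⟨i, hi, rfl⟩
      rw [hs', mem_filter] at hi
      exact hi.2
    · intro hj
      have hje : j ≠ e := by rintro rfl; exact hes hj
      have h0 : σ j ≠ 0 := by
        intro h
        apply hje
        have h5 : σ (σ j) = σ 0 := by rw [h]
        rw [hσ, Equiv.swap_apply_left, Equiv.swap_apply_self] at h5
        exact h5
      obtain ⟨k, hk⟩ := Fin.exists_succ_eq.mpr h0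
      refine ⟨k, ?_, ?_⟩
      · rw [hs', mem_filter]
        refine ⟨mem_univ _, ?_⟩
        rw [hembv, hk, hσ, Equiv.swap_apply_self]; exact hj
      · rw [hembv, hk, hσ, Equiv.swap_apply_self]
  have hcard : s'.card = s.card := by rw [← hmap, card_map]
  have hsum : ∑ i ∈ s'ᶜ, |c (σ i.succ)| = ∑ j ∈ (insert e s)ᶜ, |c j| := by
    have h1 := sum_add_sum_compl (insert e s) (fun j => |c j|)
    have h2 := sum_add_sum_compl s' (fun i => |c (σ i.succ)|)
    rw [sum_insert hes] at h1
    have h3 : ∑ i ∈ s', |c (σ i.succ)| = ∑ j ∈ s, |c j| := by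
      rw [← hmap, sum_map]
      rfl
    have h4 : ∑ j, |c j| = |c e| + ∑ i : Fin n, |c (σ i.succ)| := by
      rw [← Equiv.sum_comp σ (fun j => |c j|), Fin.sum_univ_succ, hσ, Equiv.swap_apply_left]
    linarith
  have hd' : ∀ i ∈ s', ∑ j ∈ s'ᶜ, |c (σ j.succ)| ≤ |c (σ i.succ)| := by
    intro i hi
    rw [hsum]
    rw [hs', mem_filter] at hi
    exact hd _ hi.2
  have hne' : s'.Nonempty := by
    rw [← card_pos, hcard]; exact card_pos.mpr hne
  by_cases h2 : 2 ≤ s'.card ∧ s'.card ≤ 4
  · exact dom_thr f' (fun i => c (σ i.succ)) (c e) hf1 hpos' s' h2.1 h2.2 hd'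
  · have hflat : ∀ i ∈ s', ∀ j ∈ s', |c (σ i.succ)| = |c (σ j.succ)| := by
      rcases hs with hs | hs
      · have h3 : s'.card = 1 := by
          have := card_pos.mpr hne'
          omega
        obtain ⟨k, hk⟩ := card_eq_one.mp h3
        intro i hi j hj
        rw [hk, mem_singleton] at hi hj
        rw [hi, hj]
      · intro i hi j hj
        rw [hs', mem_filter] at hi hj
        exact hs _ hi.2 _ hj.2
    obtain ⟨i1, hi1⟩ := hne'
    rw [← W1_Wt]
    apply Pool.Agent.MP_cb3c9c_an.TOP.main5 f' (fun i => c (σ i.succ)) (c e) hf1 hpos'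
    intro i hi
    have h4 : |c (σ i1.succ)| ≤ |c (σ i.succ)| := hi i1
    refine le_trans ?_ h4
    refine le_trans ?_ (hd' i1 hi1)
    apply sum_le_sum_of_subset_of_nonneg
    · intro j hj
      rw [mem_filter] at hj
      rw [mem_compl]
      intro hjs
      have h5 := hflat j hjs i1 hi1
      have h6 : |c (σ j.succ)| < |c (σ i.succ)| := hj.2
      by_cases his : i ∈ s'
      · have := hflat j hjs i his
        linarith
      · have h7 : |c (σ i.succ)| ≤ ∑ j ∈ s'ᶜ, |c (σ j.succ)| :=
          single_le_sum (f := fun j => |c (σ j.succ)|) (fun _ _ => abs_nonneg _) (mem_compl.mpr his)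
        have h8 := hd' i1 hi1
        linarith
    · intro _ _ _; exact abs_nonneg _

end Pool.Agent.MP_cb3c9c_an.FOUR
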