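import Pool.Agent.MP_cb3c9c_an.UNI.Src

set_option autoImplicit false

open Finset

namespace Pool.Agent.MP_cb3c9c_an.FOUR

open Pool.Agent.MP_cb3c9c_an.UNI

variable {n : ℕ}

/-- threshold function of the form `u` -/
noncomputable def g (u : Fin n → ℝ) (t : ℝ) (x : Fin n → Bool) : ℝ :=
  if 0 < t + Rf u x then 1 else -1

/-- no ties at `t` -/
def NT (u : Fin n → ℝ) (t : ℝ) : Prop := ∀ x, t + Rf u x ≠ 0

noncomputable def mm (u : Fin n → ℝ) (t : ℝ) : ℝ := E (g u t)
noncomputable def pp (u : Fin n → ℝ) (t : ℝ) (i : Fin n) : ℝ :=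
  E (fun x => g u t x * (sg (x i) : ℝ))

theorem Rf_not (u : Fin n → ℝ) (x : Fin n → Bool) : Rf u (fun i => !(x i)) = - Rf u x := by
  unfold Rf
  rw [← sum_neg_distrib]
  apply sum_congr rfl
  intro i _
  rw [sg_not]; push_cast; ring

theorem NT_neg {u : Fin n → ℝ} {t : ℝ} (h : NT u t) : NT u (-t) := by
  intro x hx
  apply h (fun i => !(x i))
  rw [Rf_not]; linarith

theorem g_pm (u : Fin n → ℝ) (t : ℝ) (x : Fin n → Bool) : g u t x = 1 ∨ g u t x = -1 := by
  unfold g; split_ifs
  · left; rfl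
  · right; rfl

theorem g_pos {u : Fin n → ℝ} {t : ℝ} (h : NT u t) (x : Fin n → Bool) :
    0 < g u t x * (t + Rf u x) := by
  unfold g
  split_ifs with h1
  · linarith
  · have := lt_of_le_of_ne (not_lt.mp h1) (h x)
    linarith

theorem g_neg {u : Fin n → ℝ} {t : ℝ} (h : NT u t) (x : Fin n → Bool) :
    g u (-t) (fun i => !(x i)) = - g u t x := by
  unfold g
  rw [Rf_not]
  have := h x
  by_cases h1 : 0 < t + Rf u x
  · rw [if_pos h1, if_neg (by linarith)]
  · have h2 : t + Rf u x < 0 := lt_of_le_of_ne (not_lt.mp h1) this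
    rw [if_neg h1, if_pos (by linarith)]; ring

theorem mm_neg {u : Fin n → ℝ} {t : ℝ} (h : NT u t) : mm u (-t) = - mm u t := by
  unfold mm
  rw [← E_neg (g u (-t))]
  have : -E (g u t) = E (fun x => (-1) * g u t x) := by rw [E_mul]; ring
  rw [this]
  apply E_congr
  intro x
  rw [g_neg h]; ring

theorem pp_neg {u : Fin n → ℝ} {t : ℝ} (h : NT u t) (i : Fin n) : pp u (-t) i = pp u t i := by
  unfold pp
  rw [← E_neg (fun x => g u (-t) x * (sg (x i) : ℝ))]
  apply E_congr
  intro x
  rw [g_neg h, sg_not]; push_cast; ring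

theorem g_mono (u : Fin n → ℝ) {s t : ℝ} (h : s ≤ t) (x : Fin n → Bool) : g u s x ≤ g u t x := by
  unfold g
  by_cases h1 : 0 < s + Rf u x
  · rw [if_pos h1, if_pos (by linarith)]
  · rw [if_neg h1]
    split_ifs <;> norm_num

theorem E_mono {F G : (Fin n → Bool) → ℝ} (h : ∀ x, F x ≤ G x) : E F ≤ E G := by
  unfold E
  apply div_le_div_of_nonneg_right _ (by positivity)
  exact sum_le_sum (fun x _ => h x)

theorem mm_mono (u : Fin n → ℝ) {s t : ℝ} (h : s ≤ t) : mm u s ≤ mm u t := E_mono (g_mono u h)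

theorem mm_nonneg {u : Fin n → ℝ} {t : ℝ} (h : NT u t) (ht : 0 ≤ t) : 0 ≤ mm u t := by
  have h1 := mm_neg h
  have h2 := mm_mono u (by linarith : -t ≤ t)
  linarith

theorem E_one : E (fun _ : Fin n → Bool => (1:ℝ)) = 1 := by
  unfold E
  rw [sum_const, card_univ, nsmul_eq_mul]
  simp

theorem E_zero : E (fun _ : Fin n → Bool => (0:ℝ)) = 0 := by
  unfold E; simp

theorem E_nonneg {F : (Fin n → Bool) → ℝ} (h : ∀ x, 0 ≤ F x) : 0 ≤ E F := by
  rw [← E_zero (n := n)]; exact E_mono h

theorem E_sg (i : Fin n) : E (fun x => (sg (x i) : ℝ)) = 0 := by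
  have h1 := E_flip i (fun x : Fin n → Bool => (sg (x i) : ℝ))
  have h2 : E (fun x : Fin n → Bool => (sg (UNI.flip i x i) : ℝ)) = - E (fun x => (sg (x i) : ℝ)) := by
    have : -E (fun x : Fin n → Bool => (sg (x i) : ℝ)) = E (fun x => (-1) * (sg (x i) : ℝ)) := by
      rw [E_mul]; ring
    rw [this]
    apply E_congr
    intro x
    rw [flip_same]; push_cast; ring
  linarith

theorem E_sg_sg (i j : Fin n) : E (fun x => (sg (x i) : ℝ) * (sg (x j) : ℝ)) = if i = j then 1 else 0 := by
  split_ifs with h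
  · subst h
    rw [← E_one (n := n)]
    apply E_congr
    intro x
    rcases sg_sq (x i) with h | h <;> rw [h] <;> norm_num
  · have h1 := E_flip i (fun x : Fin n → Bool => (sg (x i) : ℝ) * (sg (x j) : ℝ))
    have h2 : E (fun x : Fin n → Bool => (sg (UNI.flip i x i) : ℝ) * (sg (UNI.flip i x j) : ℝ))
        = - E (fun x => (sg (x i) : ℝ) * (sg (x j) : ℝ)) := by
      have : -E (fun x : Fin n → Bool => (sg (x i) : ℝ) * (sg (x j) : ℝ))
          = E (fun x => (-1) * ((sg (x i) : ℝ) * (sg (x j) : ℝ))) := by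
        rw [E_mul]; ring
      rw [this]
      apply E_congr
      intro x
      have h3 : UNI.flip i x j = x j := by
        unfold UNI.flip
        rw [Function.update_of_ne (fun hh => h hh.symm)]
      rw [flip_same, h3]; push_cast; ring
    linarith

/-- Bessel's inequality for the levels zero and one. -/
theorem bessel (φ : (Fin n → Bool) → ℝ) :
    (E φ) ^ 2 + ∑ i, (E (fun x => φ x * (sg (x i) : ℝ))) ^ 2 ≤ E (fun x => (φ x) ^ 2) := by
  set c0 := E φ with hc0
  set c : Fin n → ℝ := fun i => E (fun x => φ x * (sg (x i) : ℝ)) with hc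
  have h0 : 0 ≤ E (fun x => (φ x - (c0 + ∑ i, c i * (sg (x i) : ℝ))) ^ 2) :=
    E_nonneg (fun x => sq_nonneg _)
  have h1 : E (fun x => (φ x - (c0 + ∑ i, c i * (sg (x i) : ℝ))) ^ 2)
      = E (fun x => (φ x) ^ 2) - (c0 ^ 2 + ∑ i, c i ^ 2) := by
    have e1 : E (fun x => (φ x - (c0 + ∑ i, c i * (sg (x i) : ℝ))) ^ 2)
        = E (fun x => (((φ x) ^ 2 - (2 * c0) * φ x) - 2 * ∑ i, c i * (φ x * (sg (x i) : ℝ)))
          + ((c0 ^ 2 * 1 + (2 * c0) * ∑ i, c i * (sg (x i) : ℝ))
          + ∑ i, ∑ j, (c i * c j) * ((sg (x i) : ℝ) * (sg (x j) : ℝ)))) := by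
      apply E_congr
      intro x
      have e2 : ∑ i, ∑ j, (c i * c j) * ((sg (x i) : ℝ) * (sg (x j) : ℝ))
          = (∑ i, c i * (sg (x i) : ℝ)) * (∑ j, c j * (sg (x j) : ℝ)) := by
        rw [sum_mul_sum]
        apply sum_congr rfl; intro i _
        apply sum_congr rfl; intro j _
        ring
      have e3 : ∑ i, c i * (φ x * (sg (x i) : ℝ)) = φ x * ∑ i, c i * (sg (x i) : ℝ) := by
        rw [mul_sum]; apply sum_congr rfl; intro i _; ring
      rw [e2, e3]; ring
    rw [e1, E_add, E_sub, E_sub, E_mul, E_mul, E_sum, E_add, E_add, E_mul, E_mul, E_sum, E_sum, E_one]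
    have e4 : ∀ i, E (fun x => c i * (φ x * (sg (x i) : ℝ))) = c i ^ 2 := by
      intro i; rw [E_mul]; ring
    have e5 : ∀ i, E (fun x : Fin n → Bool => c i * (sg (x i) : ℝ)) = 0 := by
      intro i; rw [E_mul, E_sg, mul_zero]
    have e6 : ∀ i, E (fun x : Fin n → Bool => ∑ j, (c i * c j) * ((sg (x i) : ℝ) * (sg (x j) : ℝ)))
        = c i ^ 2 := by
      intro i
      rw [E_sum]
      have : ∀ j, E (fun x : Fin n → Bool => (c i * c j) * ((sg (x i) : ℝ) * (sg (x j) : ℝ)))
          = if i = j then c i ^ 2 else 0 := by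
        intro j
        rw [E_mul, E_sg_sg]
        split_ifs with h
        · subst h; ring
        · ring
      simp_rw [this]
      simp
    simp_rw [e4, e5, e6]
    rw [sum_const_zero, ← hc0]
    ring
  rw [h1] at h0
  linarith

theorem bessel_thr (u : Fin n → ℝ) {s t : ℝ} (h : s ≤ t) :
    ∑ i, (pp u t i - pp u s i) ^ 2 ≤ 2 * (mm u t - mm u s) - (mm u t - mm u s) ^ 2 := by
  have hb := bessel (fun x => g u t x - g u s x)
  have h1 : E (fun x => g u t x - g u s x) = mm u t - mm u s := E_sub _ _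
  have h2 : ∀ i, E (fun x => (g u t x - g u s x) * (sg (x i) : ℝ)) = pp u t i - pp u s i := by
    intro i
    unfold pp
    rw [← E_sub]
    apply E_congr
    intro x; ring
  have h3 : E (fun x => (g u t x - g u s x) ^ 2) = 2 * (mm u t - mm u s) := by
    rw [← h1, ← E_mul]
    apply E_congr
    intro x
    have hm := g_mono u h x
    rcases g_pm u t x with a | a <;> rcases g_pm u s x with b | b
    · rw [a, b]; norm_num
    · rw [a, b]; norm_num
    · rw [a, b] at hm; norm_num at hm
    · rw [a, b]; norm_num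
  rw [h1, h3] at hb
  simp_rw [h2] at hb
  linarith

/-- symmetric form -/
theorem pp_dist {u : Fin n → ℝ} {s t : ℝ} (hs : NT u s) (ht : NT u t) :
    ∑ i, (pp u t i - pp u s i) ^ 2 ≤ 2 * |(|mm u t|) - (|mm u s|)| := by
  have key : ∀ s t : ℝ, NT u s → NT u t → 0 ≤ s → s ≤ t →
      ∑ i, (pp u t i - pp u s i) ^ 2 ≤ 2 * |(|mm u t|) - (|mm u s|)| := by
    intro s t hs ht h0 hst
    have h1 := bessel_thr u hst
    have h2 := mm_nonneg hs h0
    have h3 := mm_mono u hst
    rw [abs_of_nonneg (h2.trans h3), abs_of_nonneg h2, abs_of_nonneg (by linarith)]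
    nlinarith [sq_nonneg (mm u t - mm u s)]
  have habs : ∀ t : ℝ, NT u t → NT u (|t|) ∧ (∀ i, pp u (|t|) i = pp u t i) ∧ |mm u (|t|)| = |mm u t| := by
    intro t ht
    rcases abs_choice t with h | h
    · rw [h]; exact ⟨ht, fun _ => rfl, rfl⟩
    · rw [h]
      exact ⟨NT_neg ht, fun i => pp_neg ht i, by rw [mm_neg ht, abs_neg]⟩
  obtain ⟨hs1, hs2, hs3⟩ := habs s hs
  obtain ⟨ht1, ht2, ht3⟩ := habs t ht
  rcases le_total (|s|) (|t|) with h | h
  · have := key (|s|) (|t|) hs1 ht1 (abs_nonneg _) h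
    simp_rw [hs2, ht2] at this
    rw [hs3, ht3] at this
    exact this
  · have := key (|t|) (|s|) ht1 hs1 (abs_nonneg _) h
    simp_rw [hs2, ht2] at this
    rw [hs3, ht3, abs_sub_comm] at this
    have e : ∑ i, (pp u t i - pp u s i) ^ 2 = ∑ i, (pp u s i - pp u t i) ^ 2 := by
      apply sum_congr rfl; intro i _; ring
    rw [e]; exact this

/-- splitting off a coordinate -/
theorem E_split (j : Fin n) (G : (Fin n → Bool) → ℝ) :
    E G = (E (fun x => G (Function.update x j false)) + E (fun x => G (Function.update x j true))) / 2 := by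
  have h1 : E G = (E G + E (fun x => G (UNI.flip j x))) / 2 := by rw [E_flip j G]; ring
  rw [h1, ← E_add, ← E_add]
  congr 1
  apply E_congr
  intro x
  unfold UNI.flip
  rcases hb : x j with _ | _
  · have : Function.update x j false = x := by rw [← hb]; simp
    rw [this]; simp
  · have : Function.update x j true = x := by rw [← hb]; simp
    rw [this]; simp [add_comm]

theorem Rf_update (u : Fin n → ℝ) (j : Fin n) (hu : u j = 0) (b : Bool) (x : Fin n → Bool) :
    Rf u (Function.update x j b) = Rf u x := by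
  unfold Rf
  apply sum_congr rfl
  intro i _
  by_cases h : i = j
  · subst h; rw [hu]; ring
  · rw [Function.update_of_ne h]

theorem g_update (u : Fin n → ℝ) (t : ℝ) (j : Fin n) (hu : u j = 0) (b : Bool) (x : Fin n → Bool) :
    g u t (Function.update x j b) = g u t x := by
  unfold g; rw [Rf_update u j hu]

theorem pp_head (u : Fin n → ℝ) (t : ℝ) (j : Fin n) (hu : u j = 0) : pp u t j = 0 := by
  unfold pp
  rw [E_split j]
  have h1 : E (fun x => g u t (Function.update x j false) * (sg ((Function.update x j false) j) : ℝ))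
      = E (g u t) := by
    apply E_congr
    intro x
    rw [g_update u t j hu]; simp [sg]
  have h2 : E (fun x => g u t (Function.update x j true) * (sg ((Function.update x j true) j) : ℝ))
      = - E (g u t) := by
    have : -E (g u t) = E (fun x => (-1) * g u t x) := by rw [E_mul]; ring
    rw [this]
    apply E_congr
    intro x
    rw [g_update u t j hu]; simp [sg]
  rw [h1, h2]; ring

/-- two-block bound for a pair of thresholds -/
theorem pair (u : Fin n → ℝ) {s t : ℝ} (hs : NT u s) (ht : NT u t) (j1 j2 : Fin n) (hj : j1 ≠ j2)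
    (h1 : u j1 = 0) (h2 : u j2 = 0) :
    20 / 9 ≤ 2 * ((mm u t) ^ 2 + (mm u s) ^ 2) + ∑ i, (pp u t i + pp u s i) ^ 2 := by
  classical
  set α := (t + s) / 2 with hα
  set β := (t - s) / 2 with hβ
  set τ : (Fin n → Bool) → ℝ := fun x => α * (sg (x j1) : ℝ) + β * (sg (x j2) : ℝ) with hτ
  set F : (Fin n → Bool) → ℝ := fun x => g u (τ x) x with hF
  have hτv : ∀ x, τ x = t ∨ τ x = s ∨ τ x = -s ∨ τ x = -t := by
    intro x
    simp only [hτ]
    rcases sg_sq (x j1) with h | h <;> rcases sg_sq (x j2) with h' | h' <;> rw [h, h'] <;> push_cast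
    · left; rw [hα, hβ]; ring
    · right; left; rw [hα, hβ]; ring
    · right; right; left; rw [hα, hβ]; ring
    · right; right; right; rw [hα, hβ]; ring
  have hNT : ∀ x, NT u (τ x) := by
    intro x
    rcases hτv x with h | h | h | h <;> rw [h]
    · exact ht
    · exact hs
    · exact NT_neg hs
    · exact NT_neg ht
  -- the weights
  set w : Fin n → ℝ := fun i => u i + (if i = j1 then α else 0) + (if i = j2 then β else 0) with hw
  have hRw : ∀ x : Fin n → Bool, Rf w x = τ x + Rf u x := by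
    intro x
    unfold Rf
    have e : ∀ i, w i * (sg (x i) : ℝ) = u i * (sg (x i) : ℝ) + (if i = j1 then α * (sg (x i) : ℝ) else 0)
        + (if i = j2 then β * (sg (x i) : ℝ) else 0) := by
      intro i
      simp only [hw]
      split_ifs <;> ring
    simp_rw [e]
    rw [sum_add_distrib, sum_add_distrib]
    simp only [sum_ite_eq', mem_univ, if_true, hτ]
    ring
  have hTB := tbStmt n F w 0 (fun x => g_pm u _ x) (by
    intro x
    rw [Rf_form, hRw, zero_add]
    exact g_pos (hNT x) x)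
  rw [W1_form] at hTB
  -- expand over the two coordinates
  have hval : ∀ (b1 b2 : Bool) (x : Fin n → Bool),
      F (Function.update (Function.update x j2 b2) j1 b1)
        = g u (α * (sg b1 : ℝ) + β * (sg b2 : ℝ)) x := by
    intro b1 b2 x
    simp only [hF, hτ]
    rw [g_update u _ j1 h1, g_update u _ j2 h2]
    have e1 : (Function.update (Function.update x j2 b2) j1 b1) j1 = b1 := by simp
    have e2 : (Function.update (Function.update x j2 b2) j1 b1) j2 = b2 := by
      rw [Function.update_of_ne hj.symm]; simp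
    rw [e1, e2]
  have v1 : α * (sg false : ℝ) + β * (sg false : ℝ) = t := by rw [sgF, hα, hβ]; push_cast; ring
  have v2 : α * (sg false : ℝ) + β * (sg true : ℝ) = s := by rw [sgF, sgT, hα, hβ]; push_cast; ring
  have v3 : α * (sg true : ℝ) + β * (sg false : ℝ) = -s := by rw [sgF, sgT, hα, hβ]; push_cast; ring
  have v4 : α * (sg true : ℝ) + β * (sg true : ℝ) = -t := by rw [sgT, hα, hβ]; push_cast; ring
  have hE : ∀ ψ : (Fin n → Bool) → ℝ,
      E (fun x => F x * ψ x) = (E (fun x => g u t x * ψ (Function.update (Function.update x j2 false) j1 false))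
        + E (fun x => g u s x * ψ (Function.update (Function.update x j2 true) j1 false))
        + E (fun x => g u (-s) x * ψ (Function.update (Function.update x j2 false) j1 true))
        + E (fun x => g u (-t) x * ψ (Function.update (Function.update x j2 true) j1 true))) / 4 := by
    intro ψ
    rw [E_split j1 (fun x => F x * ψ x),
      E_split j2 (fun x => F (Function.update x j1 false) * ψ (Function.update x j1 false)),
      E_split j2 (fun x => F (Function.update x j1 true) * ψ (Function.update x j1 true))]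
    have k1 : ∀ b1 b2 : Bool, E (fun x => F (Function.update (Function.update x j2 b2) j1 b1)
          * ψ (Function.update (Function.update x j2 b2) j1 b1))
        = E (fun x => g u (α * (sg b1 : ℝ) + β * (sg b2 : ℝ)) x
          * ψ (Function.update (Function.update x j2 b2) j1 b1)) := by
      intro b1 b2
      apply E_congr
      intro x; rw [hval]
    rw [k1, k1, k1, k1, v1, v2, v3, v4]
    ring
  have hmean : E F = 0 := by
    have := hE (fun _ => 1)
    simp only [mul_one] at this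
    have e1 : E (fun x => F x) = E F := rfl
    have e2 : ∀ r, E (fun x => g u r x) = mm u r := fun r => rfl
    rw [e1, e2, e2, e2, e2, mm_neg hs, mm_neg ht] at this
    rw [this]; ring
  have hc1 : E (fun x => F x * (sg (x j1) : ℝ)) = (mm u t + mm u s) / 2 := by
    have := hE (fun x => (sg (x j1) : ℝ))
    rw [this]
    have k : ∀ (r : ℝ) (b1 b2 : Bool), E (fun x => g u r x
        * (sg ((Function.update (Function.update x j2 b2) j1 b1) j1) : ℝ)) = (sg b1 : ℝ) * mm u r := by
      intro r b1 b2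
      unfold mm
      rw [← E_mul]
      apply E_congr
      intro x
      have e1 : (Function.update (Function.update x j2 b2) j1 b1) j1 = b1 := by simp
      rw [e1]; ring
    rw [k, k, k, k, mm_neg hs, mm_neg ht, sgF, sgT]; push_cast; ring
  have hc2 : E (fun x => F x * (sg (x j2) : ℝ)) = (mm u t - mm u s) / 2 := by
    have := hE (fun x => (sg (x j2) : ℝ))
    rw [this]
    have k : ∀ (r : ℝ) (b1 b2 : Bool), E (fun x => g u r x
        * (sg ((Function.update (Function.update x j2 b2) j1 b1) j2) : ℝ)) = (sg b2 : ℝ) * mm u r := by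
      intro r b1 b2
      unfold mm
      rw [← E_mul]
      apply E_congr
      intro x
      have e2 : (Function.update (Function.update x j2 b2) j1 b1) j2 = b2 := by
        rw [Function.update_of_ne hj.symm]; simp
      rw [e2]; ring
    rw [k, k, k, k, mm_neg hs, mm_neg ht, sgF, sgT]; push_cast; ring
  have hci : ∀ i, i ≠ j1 → i ≠ j2 → E (fun x => F x * (sg (x i) : ℝ)) = (pp u t i + pp u s i) / 2 := by
    intro i hi1 hi2
    have := hE (fun x => (sg (x i) : ℝ))
    rw [this]
    have k : ∀ (r : ℝ) (b1 b2 : Bool), E (fun x => g u r x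
        * (sg ((Function.update (Function.update x j2 b2) j1 b1) i) : ℝ)) = pp u r i := by
      intro r b1 b2
      unfold pp
      apply E_congr
      intro x
      rw [Function.update_of_ne hi1, Function.update_of_ne hi2]
    rw [k, k, k, k, pp_neg hs, pp_neg ht]; ring
  have hsum : ∑ i, (E (fun x => F x * (sg (x i) : ℝ))) ^ 2
      = ((mm u t) ^ 2 + (mm u s) ^ 2) / 2 + (∑ i, (pp u t i + pp u s i) ^ 2) / 4 := by
    rw [← add_sum_erase univ (fun i => (E (fun x => F x * (sg (x i) : ℝ))) ^ 2) (mem_univ j1),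
      ← add_sum_erase (univ.erase j1) (fun i => (E (fun x => F x * (sg (x i) : ℝ))) ^ 2)
        (mem_erase.mpr ⟨hj.symm, mem_univ _⟩),
      ← add_sum_erase univ (fun i => (pp u t i + pp u s i) ^ 2) (mem_univ j1),
      ← add_sum_erase (univ.erase j1) (fun i => (pp u t i + pp u s i) ^ 2)
        (mem_erase.mpr ⟨hj.symm, mem_univ _⟩)]
    rw [pp_head u t j1 h1, pp_head u s j1 h1, pp_head u t j2 h2, pp_head u s j2 h2]
    have e : ∑ i ∈ (univ.erase j1).erase j2, (E (fun x => F x * (sg (x i) : ℝ))) ^ 2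
        = (∑ i ∈ (univ.erase j1).erase j2, (pp u t i + pp u s i) ^ 2) / 4 := by
      rw [sum_div]
      apply sum_congr rfl
      intro i hi
      rw [mem_erase, mem_erase] at hi
      rw [hci i hi.2.1 hi.1]; ring
    rw [e]
    simp only [hc1, hc2]
    ring
  have hW : W1 F = (E F) ^ 2 + ∑ i, (E (fun x => F x * (sg (x i) : ℝ))) ^ 2 := rfl
  rw [hW, hmean, hsum] at hTB
  linarith

theorem real3 (a b c : ℝ) (ha : 0 ≤ a) (hb : 0 ≤ b) (hc : 0 ≤ c) :
    -1 ≤ 4 * (a ^ 2 + b ^ 2 + c ^ 2) - 2 * (|a - b| + |a - c| + |b - c|) := by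
  rcases abs_cases (a - b) with ⟨h1, h1'⟩ | ⟨h1, h1'⟩ <;> rcases abs_cases (a - c) with ⟨h2, h2'⟩ | ⟨h2, h2'⟩ <;>
    rcases abs_cases (b - c) with ⟨h3, h3'⟩ | ⟨h3, h3'⟩ <;> rw [h1, h2, h3] <;>
    nlinarith [sq_nonneg (2 * a - 1), sq_nonneg (2 * b - 1), sq_nonneg (2 * c - 1), sq_nonneg a, sq_nonneg b, sq_nonneg c]

/-- the inequality for three thresholds of one form -/
theorem three (u : Fin n → ℝ) {r s t : ℝ} (hr : NT u r) (hs : NT u s) (ht : NT u t)
    (j1 j2 : Fin n) (hj : j1 ≠ j2) (h1 : u j1 = 0) (h2 : u j2 = 0) :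
    19 / 4 ≤ 4 * ((mm u r) ^ 2 + (mm u s) ^ 2 + (mm u t) ^ 2)
      + ∑ i, (pp u r i + pp u s i + pp u t i) ^ 2 := by
  have a1 := pair u hr hs j1 j2 hj h1 h2
  have a2 := pair u hr ht j1 j2 hj h1 h2
  have a3 := pair u hs ht j1 j2 hj h1 h2
  have b1 := pp_dist hr hs
  have b2 := pp_dist hr ht
  have b3 := pp_dist hs ht
  have c1 := real3 (|mm u r|) (|mm u s|) (|mm u t|) (abs_nonneg _) (abs_nonneg _) (abs_nonneg _)
  rw [sq_abs, sq_abs, sq_abs] at c1
  have d1 : ∑ i, (pp u r i + pp u s i + pp u t i) ^ 2 + ∑ i, ((pp u r i) ^ 2 + (pp u s i) ^ 2 + (pp u t i) ^ 2)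
      = ∑ i, (pp u s i + pp u r i) ^ 2 + ∑ i, (pp u t i + pp u r i) ^ 2 + ∑ i, (pp u t i + pp u s i) ^ 2 := by
    rw [← sum_add_distrib, ← sum_add_distrib, ← sum_add_distrib]
    apply sum_congr rfl; intro i _; ring
  have d2 : ∑ i, (pp u r i + pp u s i + pp u t i) ^ 2
        + (∑ i, (pp u s i - pp u r i) ^ 2 + ∑ i, (pp u t i - pp u r i) ^ 2 + ∑ i, (pp u t i - pp u s i) ^ 2)
      = 3 * ∑ i, ((pp u r i) ^ 2 + (pp u s i) ^ 2 + (pp u t i) ^ 2) := by
    rw [← sum_add_distrib, ← sum_add_distrib, ← sum_add_distrib, mul_sum]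
    apply sum_congr rfl; intro i _; ring
  have e1 : |(|mm u s|) - (|mm u r|)| = |(|mm u r|) - (|mm u s|)| := abs_sub_comm _ _
  have e2 : |(|mm u t|) - (|mm u r|)| = |(|mm u r|) - (|mm u t|)| := abs_sub_comm _ _
  have e3 : |(|mm u t|) - (|mm u s|)| = |(|mm u s|) - (|mm u t|)| := abs_sub_comm _ _
  rw [e1] at b1
  rw [e2] at b2
  rw [e3] at b3
  linarith

end Pool.Agent.MP_cb3c9c_an.FOUR
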