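import Pool.Agent.MP_cb3c9c_an.TOP.Sym
import Pool.Agent.MP_cb3c9c_an.UNI.Mass

set_option autoImplicit false

open Finset

namespace Pool.Agent.MP_cb3c9c_an.FOUR

open Pool.Agent.MP_cb3c9c_an.UNI

variable {n : ℕ}

theorem L_le_of_card (a : Fin n → ℤ) (s : Finset (Fin n)) (z : ℤ)
    (h : (univ.filter (fun x : Fin n → Bool =>
        ∑ j ∈ s, a j * (if x j then (-1:ℤ) else 1) = z + 2)).card
      ≤ (univ.filter (fun x : Fin n → Bool =>
        ∑ j ∈ s, a j * (if x j then (-1:ℤ) else 1) = z)).card) :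
    L a s (z + 2) ≤ L a s z := by
  rw [L_card, L_card]
  have h2 : (0:ℝ) < 2 ^ n := by positivity
  rw [div_le_div_iff_of_pos_right h2]
  exact_mod_cast h

/-- all the homogeneous weights but one lie in `{0, ±C, ±2C}` -/
theorem onetwo_main (f : (Fin n → Bool) → ℝ) (c : Fin (n + 1) → ℝ)
    (hf : ∀ x, f x = 1 ∨ f x = -1)
    (hpos : ∀ x, 0 < f x * (c 0 + ∑ i : Fin n, c i.succ * (if x i then (-1:ℝ) else 1)))
    (C : ℝ) (hC : 0 < C) (a : Fin (n + 1) → ℤ) (e : Fin (n + 1))
    (ha : ∀ i, i ≠ e → c i = C * a i ∧ |a i| ≤ 2) :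
    2 / Real.pi ≤ W1 f := by
  obtain ⟨f', hf1, hW, hpos'⟩ := swap_out f c hf hpos e
  rw [← hW]
  set σ : Equiv.Perm (Fin (n + 1)) := Equiv.swap 0 e with hσ
  have hne : ∀ i : Fin n, σ i.succ ≠ e := by
    intro i h
    have h1 : σ (σ i.succ) = σ e := by rw [h]
    rw [hσ, Equiv.swap_apply_self, Equiv.swap_apply_right] at h1
    exact Fin.succ_ne_zero i h1
  have key := thr_all regStmt f' (fun i => a (σ i.succ)) (c e / C) hf1 (by
    intro x
    have h := hpos' x
    have e1 : c e + ∑ i : Fin n, c (σ i.succ) * (if x i then (-1:ℝ) else 1)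
        = C * (c e / C + ∑ i : Fin n, (a (σ i.succ) : ℝ) * (if x i then (-1:ℝ) else 1)) := by
      rw [mul_add, mul_div_cancel₀ _ hC.ne', mul_sum]
      congr 1
      apply sum_congr rfl
      intro i _
      rw [(ha _ (hne i)).1]; ring
    rw [e1] at h
    have h2 : f' x * (C * (c e / C + ∑ i : Fin n, (a (σ i.succ) : ℝ) * (if x i then (-1:ℝ) else 1)))
        = C * (f' x * (c e / C + ∑ i : Fin n, (a (σ i.succ) : ℝ) * (if x i then (-1:ℝ) else 1))) := by
      ring
    rw [h2] at h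
    exact (mul_pos_iff_of_pos_left hC).mp h)
    (fun i => (ha _ (hne i)).2)
  rw [W1_form] at key
  exact key

/-- unimodal heads -/
theorem uni_main (f : (Fin n → Bool) → ℝ) (c : Fin (n + 1) → ℝ)
    (hf : ∀ x, f x = 1 ∨ f x = -1)
    (hpos : ∀ x, 0 < f x * (c 0 + ∑ i : Fin n, c i.succ * (if x i then (-1:ℝ) else 1)))
    (C : ℝ) (hC : 0 < C) (a : Fin (n + 1) → ℤ) (s : Finset (Fin (n + 1)))
    (hs : ∀ i ∈ s, c i = C * a i)
    (h : (Odd (∑ i ∈ s, a i) ∧ ∑ i ∈ sᶜ, |c i| < C ∧ ∀ i ∈ s, 3 ≤ |a i| → ∀ z : ℤ, 0 ≤ z →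
        (univ.filter (fun x : Fin (n + 1) → Bool =>
          ∑ j ∈ s.erase i, a j * (if x j then (-1:ℤ) else 1) = z + 2)).card
        ≤ (univ.filter (fun x : Fin (n + 1) → Bool =>
          ∑ j ∈ s.erase i, a j * (if x j then (-1:ℤ) else 1) = z)).card) ∨
      (Even (∑ i ∈ s, a i) ∧ ∑ i ∈ sᶜ, |c i| < 2 * C ∧ (∃ i ∈ s, |a i| = 1) ∧
        ∀ i ∈ s, a i ≠ 0 → ∀ z : ℤ, 0 ≤ z →
        (univ.filter (fun x : Fin (n + 1) → Bool =>
          ∑ j ∈ s.erase i, a j * (if x j then (-1:ℤ) else 1) = z + 2)).card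
        ≤ (univ.filter (fun x : Fin (n + 1) → Bool =>
          ∑ j ∈ s.erase i, a j * (if x j then (-1:ℤ) else 1) = z)).card)) :
    2 / Real.pi ≤ W1 f := by
  rw [← W1_hom f]
  have hp : ∀ y : Fin (n + 1) → Bool,
      0 < hom f y * (0 + ∑ i, c i * (if y i then (-1:ℝ) else 1)) := by
    intro y
    rw [zero_add, Rf_form]
    exact hom_pos f c hpos y
  rcases h with ⟨hodd, hsm, hU⟩ | ⟨hev, hsm, hu, hU⟩
  · apply head_odd regStmt (hom f) c 0 (hom_pm f hf) hp s a C hC hs hodd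
    · rw [abs_zero, zero_add]; exact hsm
    · intro i hi h3 z hz
      exact L_le_of_card a _ z (hU i hi h3 z hz)
  · apply head_even regStmt tbStmt (hom f) c 0 (hom_pm f hf) hp s a C hC hs hev
    · rw [abs_zero, zero_add]; exact hsm
    · exact hu
    · intro i hi h3 z hz
      exact L_le_of_card a _ z (hU i hi h3 z hz)

/-- Enough unit weights: the head `s` consists of integer multiples of `C`; the number of its unit
weights exceeds the sum of `a_i ^ 2 - 2` over its weights of absolute value at least three. -/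
theorem mass_main (f : (Fin n → Bool) → ℝ) (c : Fin (n + 1) → ℝ)
    (hf : ∀ x, f x = 1 ∨ f x = -1)
    (hpos : ∀ x, 0 < f x * (c 0 + ∑ i : Fin n, c i.succ * (if x i then (-1:ℝ) else 1)))
    (C : ℝ) (hC : 0 < C) (a : Fin (n + 1) → ℤ) (s : Finset (Fin (n + 1)))
    (hs : ∀ i ∈ s, c i = C * a i) (hsm : ∑ i ∈ sᶜ, |c i| < C)
    (h : ∑ i ∈ s.filter (fun i => 3 ≤ |a i|), ((a i) ^ 2 - 2) + 2
      ≤ ((s.filter (fun i => |a i| = 1)).card : ℤ)) :
    2 / Real.pi ≤ W1 f := by
  classical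
  rw [← W1_hom f]
  have hp : ∀ y : Fin (n + 1) → Bool,
      0 < hom f y * (0 + ∑ i, c i * (if y i then (-1:ℝ) else 1)) := by
    intro y
    rw [zero_add, Rf_form]
    exact hom_pos f c hpos y
  have hU : ∀ i ∈ s, ∀ z : ℤ, 0 ≤ z → L a (s.erase i) (z + 2) ≤ L a (s.erase i) z := by
    intro i hi z hz
    rw [L_ab a, L_ab a]
    refine (UL1.mp (UL_mass (ab a) (s.erase i) (fun j _ => abs_nonneg _) ?_)) z hz
    have e1 : ∑ j ∈ (s.erase i).filter (fun j => 3 ≤ ab a j), ((ab a j) ^ 2 - 2)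
        ≤ ∑ j ∈ s.filter (fun j => 3 ≤ |a j|), ((a j) ^ 2 - 2) := by
      have e2 : ∑ j ∈ (s.erase i).filter (fun j => 3 ≤ ab a j), ((ab a j) ^ 2 - 2)
          = ∑ j ∈ (s.erase i).filter (fun j => 3 ≤ |a j|), ((a j) ^ 2 - 2) := by
        apply sum_congr rfl
        intro j _
        unfold ab
        rw [sq_abs]
      rw [e2]
      apply sum_le_sum_of_subset_of_nonneg
      · intro j hj
        rw [mem_filter, mem_erase] at hj
        rw [mem_filter]
        exact ⟨hj.1.2, hj.2⟩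
      · intro j hj _
        rw [mem_filter] at hj
        have h3 := hj.2
        have : 9 ≤ (a j) ^ 2 := by
          rw [← sq_abs]; nlinarith
        linarith
    have e3 : ((s.filter (fun j => |a j| = 1)).card : ℤ)
        ≤ (((s.erase i).filter (fun j => ab a j = 1)).card : ℤ) + 1 := by
      have e4 : s.filter (fun j => |a j| = 1)
          ⊆ insert i ((s.erase i).filter (fun j => ab a j = 1)) := by
        intro j hj
        rw [mem_filter] at hj
        rw [mem_insert, mem_filter, mem_erase]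
        by_cases h1 : j = i
        · left; exact h1
        · right; exact ⟨⟨h1, hj.1⟩, hj.2⟩
      have e5 := (card_le_card e4).trans (card_insert_le _ _)
      exact_mod_cast e5
    linarith
  have hM0 : 0 ≤ ∑ i ∈ s.filter (fun i => 3 ≤ |a i|), ((a i) ^ 2 - 2) := by
    apply sum_nonneg
    intro j hj
    rw [mem_filter] at hj
    have h3 := hj.2
    have : 9 ≤ (a j) ^ 2 := by
      rw [← sq_abs]; nlinarith
    linarith
  rcases Int.even_or_odd (∑ i ∈ s, a i) with hev | hodd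
  · apply head_even regStmt tbStmt (hom f) c 0 (hom_pm f hf) hp s a C hC hs hev
    · rw [abs_zero, zero_add]; linarith
    · have hpos1 : 0 < (s.filter (fun i => |a i| = 1)).card := by
        have : (0:ℤ) < (s.filter (fun i => |a i| = 1)).card := by linarith
        exact_mod_cast this
      obtain ⟨k, hk⟩ := card_pos.mp hpos1
      rw [mem_filter] at hk
      exact ⟨k, hk.1, hk.2⟩
    · intro i hi _ z hz
      exact hU i hi z hz
  · apply head_odd regStmt (hom f) c 0 (hom_pm f hf) hp s a C hC hs hodd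
    · rw [abs_zero, zero_add]; exact hsm
    · intro i hi _ z hz
      exact hU i hi z hz

end Pool.Agent.MP_cb3c9c_an.FOUR
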